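import Pool.Agent.CP70.DetY
import Pool.Agent.CP25.Prob

/-!
# CP70/Blk: the deterministic theorem for one block, and the sum over the blocks
-/

set_option autoImplicit false

open Finset

namespace Pool.Agent.CP70

open Pool.Agent.CP25 Pool.Agent.CP69

variable {A : Set ℕ}

theorem cntx1 {n L x g : ℕ} {J S : Finset ℕ}
    (hS : ∀ q ∈ S, ∃ l, 0 < l ∧ l < n ∧ x ≤ el A (n - l) ∧ el A (n - l) < x + L ∧
      l + el A (n - l) ∈ A ∧
      (q : ℤ) = el A (l + el A (n - l)) - ((l + el A (n - l) : ℕ) : ℤ) + 1)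
    (h : ∀ j ∈ J, ∃ q ∈ grp g j S, q ∈ A) :
    ∃ I : Finset ℕ, J.card ≤ I.card ∧ ∀ l ∈ I, (l < n ∧ Ok1 A n l) ∧ x ≤ el A (n - l) ∧
      el A (n - l) < x + L := by
  classical
  choose! q hq hqA using h
  have hex := fun j (hj : j ∈ J) => hS _ (grp_subset _ _ _ (hq j hj))
  choose! l h1 h2 h5 h6 h3 h4 using hex
  refine ⟨J.image l, ?_, ?_⟩
  · rw [card_image_of_injOn]
    intro i hi j hj hij
    rw [mem_coe] at hi hj
    have h7 : (q i : ℤ) = q j := by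
      rw [h4 i hi, h4 j hj, hij]
    have h8 : q i = q j := by exact_mod_cast h7
    exact grp_disj (hq i hi) (by rw [h8]; exact hq j hj)
  · intro y hy
    rw [mem_image] at hy
    obtain ⟨j, hj, rfl⟩ := hy
    exact ⟨⟨h2 j hj, h1 j hj, h2 j hj, h3 j hj, q j, hqA j hj, h4 j hj⟩, h5 j hj, h6 j hj⟩

theorem cntx2 {n L x g : ℕ} {J S : Finset ℕ}
    (hS : ∀ q ∈ S, ∃ l, 0 < l ∧ l < n ∧ x ≤ el A (n - l) ∧ el A (n - l) < x + L ∧
      l + el A (n - l) ∈ A ∧ q = el A (l + el A (n - l)) + (l + el A (n - l)) + 1)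
    (h : ∀ j ∈ J, ∃ q ∈ grp g j S, q ∈ A) :
    ∃ I : Finset ℕ, J.card ≤ I.card ∧ ∀ l ∈ I, (l < n ∧ Ok2 A n l) ∧ x ≤ el A (n - l) ∧
      el A (n - l) < x + L := by
  classical
  choose! q hq hqA using h
  have hex := fun j (hj : j ∈ J) => hS _ (grp_subset _ _ _ (hq j hj))
  choose! l h1 h2 h5 h6 h3 h4 using hex
  refine ⟨J.image l, ?_, ?_⟩
  · rw [card_image_of_injOn]
    intro i hi j hj hij
    rw [mem_coe] at hi hj
    have h8 : q i = q j := by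
      rw [h4 i hi, h4 j hj, hij]
    exact grp_disj (hq i hi) (by rw [h8]; exact hq j hj)
  · intro y hy
    rw [mem_image] at hy
    obtain ⟨j, hj, rfl⟩ := hy
    refine ⟨⟨h2 j hj, h1 j hj, h2 j hj, h3 j hj, ?_⟩, h5 j hj, h6 j hj⟩
    rw [← h4 j hj]
    exact hqA j hj

/-- the sum over the blocks -/
theorem sum_blk {P : ℕ → Prop} {f : ℕ → ℕ} {J h L x : ℕ}
    (hb : ∀ i < J, ∃ I : Finset ℕ, h ≤ I.card ∧ ∀ l ∈ I, P l ∧ x + i * L ≤ f l ∧
      f l < x + i * L + L) :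
    ∃ I : Finset ℕ, J * h ≤ I.card ∧ ∀ l ∈ I, P l := by
  classical
  choose! I h1 h2 using hb
  refine ⟨(range J).biUnion I, ?_, ?_⟩
  · rw [card_biUnion]
    · calc J * h = ∑ _i ∈ range J, h := by rw [sum_const, card_range, smul_eq_mul]
        _ ≤ _ := sum_le_sum fun i hi => h1 i (mem_range.1 hi)
    · intro i hi j hj hij
      rw [mem_coe, mem_range] at hi hj
      rw [Function.onFun, disjoint_left]
      intro l hl hl'
      obtain ⟨-, h3, h4⟩ := h2 i hi l hl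
      obtain ⟨-, h5, h6⟩ := h2 j hj l hl'
      rcases lt_trichotomy i j with h7 | h7 | h7
      · have h8 : (i + 1) * L ≤ j * L := Nat.mul_le_mul_right _ h7
        have e : (i + 1) * L = i * L + L := by ring
        omega
      · exact hij h7
      · have h8 : (j + 1) * L ≤ i * L := Nat.mul_le_mul_right _ h7
        have e : (j + 1) * L = j * L + L := by ring
        omega
  · intro l hl
    rw [mem_biUnion] at hl
    obtain ⟨i, hi, hl⟩ := hl
    exact (h2 i (mem_range.1 hi) l hl).1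

/-- one block -/
theorem blk {n g k L Xm x T h : ℕ} (hS : Sz n g k L Xm) (hT : Ty A n g k Xm) (hx : n ≤ x)
    (hxX : x + L ≤ Xm) (hTL : 4 * g * T ≤ L) (hh : 1 ≤ h)
    (c1 : ∃ S : Finset ℕ, (∀ t ∈ S, t < T ∧ ∃ m ∈ Ico (x + 4 * g * t) (x + 4 * g * t + g), m ∈ A) ∧
      8 * (8 * h * g) * g ≤ S.card)
    (c2 : (∀ j < 8 * (8 * h * g),
        g ≤ (grp g j (Pset n g x T L (trS A (n ^ 2) (Icc (x + n / 2) (x + n + L))))).card) →
      ∃ S : Finset ℕ, (∀ j ∈ S, j < 8 * (8 * h * g) ∧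
        ∃ q ∈ grp g j (Pset n g x T L (trS A (n ^ 2) (Icc (x + n / 2) (x + n + L)))), q ∈ A) ∧
        8 * h * g ≤ S.card)
    (c3 : ∀ v, x + n + L < v → v + (L * k + k + L) ≤ n ^ 2 →
      (∀ j < 8 * h, g ≤ (grp g j (Q1x n x L (L * k + k + L) v
        (cV A (Icc v (v + (L * k + k + L))))
        (trS A (n ^ 2) (Icc v (v + (L * k + k + L)))))).card) →
      ∃ S : Finset ℕ, (∀ j ∈ S, j < 8 * h ∧ ∃ q ∈ grp g j (Q1x n x L (L * k + k + L) v
        (cV A (Icc v (v + (L * k + k + L))))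
        (trS A (n ^ 2) (Icc v (v + (L * k + k + L))))), q ∈ A) ∧ h ≤ S.card)
    (c4 : ∀ v, x + n + L < v → v + (L * k + k + L) ≤ n ^ 2 →
      (∀ j < 8 * h, g ≤ (grp g j (Q2x n x L (L * k + k + L) v
        (trS A (n ^ 2) (Icc v (v + (L * k + k + L)))))).card) →
      ∃ S : Finset ℕ, (∀ j ∈ S, j < 8 * h ∧ ∃ q ∈ grp g j (Q2x n x L (L * k + k + L) v
        (trS A (n ^ 2) (Icc v (v + (L * k + k + L))))), q ∈ A) ∧ h ≤ S.card) :
    (∃ I : Finset ℕ, h ≤ I.card ∧ ∀ l ∈ I, (l < n ∧ Ok1 A n l) ∧ x ≤ el A (n - l) ∧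
      el A (n - l) < x + L) ∧
    (∃ I : Finset ℕ, h ≤ I.card ∧ ∀ l ∈ I, (l < n ∧ Ok2 A n l) ∧ x ≤ el A (n - l) ∧
      el A (n - l) < x + L) := by
  classical
  obtain ⟨s1, s2, s3, s4, s5, s8⟩ := sz_facts hS hxX
  have s6 := hS.hw
  have s7 := hS.g1
  obtain ⟨S1, hS1, hS1c⟩ := c1
  have hP := pset_card hS hT hx hxX hTL hS1c (fun t ht => by
    obtain ⟨h1, m, hm, hmA⟩ := hS1 t ht
    rw [mem_Ico] at hm
    exact ⟨h1, m, hmA, hm.1, hm.2⟩)
  obtain ⟨P, hPP⟩ : ∃ P, P = Pset n g x T L (trS A (n ^ 2) (Icc (x + n / 2) (x + n + L))) :=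
    ⟨_, rfl⟩
  rw [← hPP] at hP c2
  obtain ⟨S2, hS2, hS2c⟩ := c2 (fun j hj => card_grp ((Nat.mul_le_mul_right g hj).trans hP))
  choose! hq1 q hq2 hq3 using hS2
  obtain ⟨H, hH⟩ : ∃ H, H = S2.image q := ⟨_, rfl⟩
  have hHc : 8 * h * g ≤ H.card := by
    rw [hH, card_image_of_injOn]
    · exact hS2c
    · intro i hi j hj hij
      rw [mem_coe] at hi hj
      exact grp_disj (hq2 i hi) (by rw [hij]; exact hq2 j hj)
  have hHA : ∀ p ∈ H, p ∈ A := by
    intro p hp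
    rw [hH, mem_image] at hp
    obtain ⟨j, hj, rfl⟩ := hp
    exact hq3 j hj
  have hHP : ∀ p ∈ H, p ∈ Pset n g x T L (trS A (n ^ 2) (Icc (x + n / 2) (x + n + L))) := by
    intro p hp
    rw [hH, mem_image] at hp
    obtain ⟨j, hj, rfl⟩ := hp
    rw [← hPP]
    exact grp_subset _ _ _ (hq2 j hj)
  have hpos : 0 < 8 * h * g := by positivity
  have hHn : H.Nonempty := card_pos.1 (by omega)
  obtain ⟨b, P0, hHH⟩ := exists_HH hS hT hx hxX hTL hHn hHA hHP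
  constructor
  · obtain ⟨v, hv1, hv2, hv3⟩ := q1_card hS hT hx hxX hHH
    obtain ⟨S3, hS3, hS3c⟩ := c3 v hv1 hv2 (fun j hj =>
      card_grp ((Nat.mul_le_mul_right g hj).trans (hHc.trans hv3)))
    obtain ⟨I, hI1, hI2⟩ := cntx1 (x := x) (L := L) (n := n) (J := S3)
      (fun q hq => conc1x (by omega) (by omega) hq) (fun j hj => (hS3 j hj).2)
    exact ⟨I, hS3c.trans hI1, hI2⟩
  · obtain ⟨v, hv1, hv2, hv3⟩ := q2_card hS hT hx hxX hHH
    obtain ⟨S3, hS3, hS3c⟩ := c4 v hv1 hv2 (fun j hj =>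
      card_grp ((Nat.mul_le_mul_right g hj).trans (hHc.trans hv3)))
    obtain ⟨I, hI1, hI2⟩ := cntx2 (x := x) (L := L) (n := n) (J := S3)
      (fun q hq => conc2x (by omega) (by omega) hq) (fun j hj => (hS3 j hj).2)
    exact ⟨I, hS3c.trans hI1, hI2⟩

theorem le_num1 {n M : ℕ} {I : Finset ℕ} (h : M ≤ I.card) (hI : ∀ l ∈ I, l < n ∧ Ok1 A n l) :
    M ≤ num1 A n := by
  classical
  refine h.trans (card_le_card ?_)
  intro l hl
  rw [mem_filter, mem_range]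
  exact hI l hl

theorem le_num2 {n M : ℕ} {I : Finset ℕ} (h : M ≤ I.card) (hI : ∀ l ∈ I, l < n ∧ Ok2 A n l) :
    M ≤ num2 A n := by
  classical
  refine h.trans (card_le_card ?_)
  intro l hl
  rw [mem_filter, mem_range]
  exact hI l hl

end Pool.Agent.CP70
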