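import Pool.Agent.CM69.Key

/-!
# Families of disjoint candidate sets; dense windows

`fam_le`: `8 h` disjoint sets of candidates (functions of the random set outside of `V`), each with at least `g` elements: with
probability at least `1 - exp (-h)` at least `h` of them meet the random set. `dens_le`: a window of length `g` rarely has more than
`g/2` elements.
-/

set_option autoImplicit false

namespace Pool.Agent.CP70

open MeasureTheory ProbabilityTheory Finset
open Pool.Agent.CM69 (tr mem_tr real_biInter key)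

variable {Ω : Type*} [mΩ : MeasurableSpace Ω] {μ : Measure Ω} {E : ℕ → Set Ω}

open Classical in
theorem fam_le0 [IsProbabilityMeasure μ] (hE : ∀ m, MeasurableSet (E m)) (hi : iIndepSet E μ)
    (X : ℕ) (V : Finset ℕ) {c : ℝ} (h0 : 0 ≤ c) (h1 : c ≤ 1) (hc : ∀ m ∈ V, c ≤ μ.real (E m))
    (g h : ℕ) (hg : (1 - c) ^ g ≤ Real.exp (-2)) (C : ℕ → Finset ℕ → Finset ℕ)
    (hC : ∀ j G, C j G ⊆ V)
    (hd : ∀ G, ∀ i < 8 * h, ∀ j < 8 * h, i ≠ j → Disjoint (C i G) (C j G)) :
    μ.real {ω | (∀ j < 8 * h, g ≤ (C j (tr E X V ω)).card) ∧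
      ((range (8 * h)).filter (fun j => ∃ q ∈ C j (tr E X V ω), ω ∈ E q)).card < h} ≤
      Real.exp (-h) := by
  classical
  have hcov : {ω | (∀ j < 8 * h, g ≤ (C j (tr E X V ω)).card) ∧
      ((range (8 * h)).filter (fun j => ∃ q ∈ C j (tr E X V ω), ω ∈ E q)).card < h} ⊆
      ⋃ S ∈ (range (8 * h)).powerset.filter (fun S => S.card = 7 * h),
        {ω | 7 * h * g ≤ ((fun G => S.biUnion (fun j => C j G)) (tr E X V ω)).card ∧
          ∀ q ∈ (fun G => S.biUnion (fun j => C j G)) (tr E X V ω), ω ∉ E q} := by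
    rintro ω ⟨h2, h3⟩
    have h4 := card_filter_add_card_filter_not (s := range (8 * h))
      (fun j => ∃ q ∈ C j (tr E X V ω), ω ∈ E q)
    rw [card_range] at h4
    obtain ⟨S, hS1, hS2⟩ := exists_subset_card_eq (n := 7 * h)
      (s := (range (8 * h)).filter (fun j => ¬ ∃ q ∈ C j (tr E X V ω), ω ∈ E q)) (by omega)
    have hSr : S ⊆ range (8 * h) := hS1.trans (filter_subset _ _)
    rw [Set.mem_iUnion₂]
    refine ⟨S, mem_filter.2 ⟨mem_powerset.2 hSr, hS2⟩, ?_, ?_⟩
    · show 7 * h * g ≤ (S.biUnion (fun j => C j (tr E X V ω))).card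
      rw [card_biUnion (fun i hi' j hj hij =>
        hd _ i (mem_range.1 (hSr hi')) j (mem_range.1 (hSr hj)) hij)]
      calc 7 * h * g = ∑ _j ∈ S, g := by rw [sum_const, hS2, smul_eq_mul]
        _ ≤ ∑ j ∈ S, (C j (tr E X V ω)).card :=
            sum_le_sum fun j hj => h2 j (mem_range.1 (hSr hj))
    · intro q hq hqE
      have hq' : q ∈ S.biUnion (fun j => C j (tr E X V ω)) := hq
      rw [mem_biUnion] at hq'
      obtain ⟨j, hj, hqj⟩ := hq'
      exact (mem_filter.1 (hS1 hj)).2 ⟨q, hqj, hqE⟩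
  have hone : ∀ S ∈ (range (8 * h)).powerset.filter (fun S => S.card = 7 * h),
      μ.real {ω | 7 * h * g ≤ ((fun G => S.biUnion (fun j => C j G)) (tr E X V ω)).card ∧
          ∀ q ∈ (fun G => S.biUnion (fun j => C j G)) (tr E X V ω), ω ∉ E q} ≤
        Real.exp (-2) ^ (7 * h) := by
    intro S _
    refine (key hE hi X V h0 h1 hc (fun G => S.biUnion (fun j => C j G)) (fun G => ?_)
      (7 * h * g)).trans ?_
    · exact biUnion_subset.2 fun j _ => hC j G
    · rw [mul_comm, pow_mul]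
      exact pow_le_pow_left₀ (pow_nonneg (by linarith) _) hg _
  have hcard : (((range (8 * h)).powerset.filter (fun S => S.card = 7 * h)).card : ℝ) ≤
      2 ^ (8 * h) := by
    have h2 : ((range (8 * h)).powerset.filter (fun S => S.card = 7 * h)).card ≤ 2 ^ (8 * h) := by
      refine (card_le_card (filter_subset _ _)).trans ?_
      rw [card_powerset, card_range]
    exact_mod_cast h2
  calc _ ≤ μ.real (⋃ S ∈ (range (8 * h)).powerset.filter (fun S => S.card = 7 * h),
        {ω | 7 * h * g ≤ ((fun G => S.biUnion (fun j => C j G)) (tr E X V ω)).card ∧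
          ∀ q ∈ (fun G => S.biUnion (fun j => C j G)) (tr E X V ω), ω ∉ E q}) :=
        measureReal_mono hcov (measure_ne_top _ _)
    _ ≤ ∑ S ∈ (range (8 * h)).powerset.filter (fun S => S.card = 7 * h),
        μ.real {ω | 7 * h * g ≤ ((fun G => S.biUnion (fun j => C j G)) (tr E X V ω)).card ∧
          ∀ q ∈ (fun G => S.biUnion (fun j => C j G)) (tr E X V ω), ω ∉ E q} :=
        measureReal_biUnion_finset_le _ _
    _ ≤ ∑ _S ∈ (range (8 * h)).powerset.filter (fun S => S.card = 7 * h),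
        Real.exp (-2) ^ (7 * h) := sum_le_sum hone
    _ = (((range (8 * h)).powerset.filter (fun S => S.card = 7 * h)).card : ℝ) *
        Real.exp (-2) ^ (7 * h) := by rw [sum_const, nsmul_eq_mul]
    _ ≤ 2 ^ (8 * h) * Real.exp (-2) ^ (7 * h) :=
        mul_le_mul_of_nonneg_right hcard (by positivity)
    _ ≤ Real.exp 1 ^ (8 * h) * Real.exp (-2) ^ (7 * h) := by
        refine mul_le_mul_of_nonneg_right (pow_le_pow_left₀ (by norm_num) ?_ _) (by positivity)
        have := Real.exp_one_gt_d9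
        linarith
    _ = Real.exp (-(6 * h)) := by
        rw [← Real.exp_nat_mul, ← Real.exp_nat_mul, ← Real.exp_add]
        congr 1
        push_cast
        ring
    _ ≤ Real.exp (-h) := by
        rw [Real.exp_le_exp]
        have : (0 : ℝ) ≤ h := Nat.cast_nonneg _
        linarith

open Classical in
theorem dens_le0 [IsProbabilityMeasure μ] (hi : iIndepSet E μ)
    (hp : ∀ m, 3 ≤ m → μ.real (E m) = 1 / Real.log m) {N0 y g : ℕ} (h3 : 3 ≤ N0) (hy : N0 ≤ y) :
    μ.real {ω | g < 2 * ((Ico y (y + g)).filter (fun m => ω ∈ E m)).card} ≤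
      2 ^ g * (1 / Real.log N0) ^ (g / 2) := by
  have hlog : 0 < Real.log N0 := Real.log_pos (by exact_mod_cast (by omega : 1 < N0))
  have hcov : {ω | g < 2 * ((Ico y (y + g)).filter (fun m => ω ∈ E m)).card} ⊆
      ⋃ S ∈ (Ico y (y + g)).powerset.filter (fun S => S.card = g / 2), ⋂ m ∈ S, E m := by
    intro ω hω
    rw [Set.mem_ofPred_eq] at hω
    obtain ⟨S, hS1, hS2⟩ := exists_subset_card_eq (n := g / 2)
      (s := (Ico y (y + g)).filter (fun m => ω ∈ E m)) (by omega)
    rw [Set.mem_iUnion₂]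
    refine ⟨S, mem_filter.2 ⟨mem_powerset.2 (hS1.trans (filter_subset _ _)), hS2⟩, ?_⟩
    rw [Set.mem_iInter₂]
    exact fun m hm => (mem_filter.1 (hS1 hm)).2
  have hone : ∀ S ∈ (Ico y (y + g)).powerset.filter (fun S => S.card = g / 2),
      μ.real (⋂ m ∈ S, E m) ≤ (1 / Real.log N0) ^ (g / 2) := by
    intro S hS
    rw [mem_filter, mem_powerset] at hS
    rw [real_biInter hi _ _ fun m _ => Or.inl rfl]
    calc ∏ m ∈ S, μ.real (E m) ≤ ∏ _m ∈ S, 1 / Real.log N0 := by
          refine prod_le_prod (fun m _ => measureReal_nonneg) fun m hm => ?_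
          have hm' := mem_Ico.1 (hS.1 hm)
          rw [hp m (by omega)]
          refine one_div_le_one_div_of_le hlog (Real.log_le_log ?_ ?_)
          · exact_mod_cast (by omega : 0 < N0)
          · exact_mod_cast (by omega : N0 ≤ m)
      _ = (1 / Real.log N0) ^ (g / 2) := by rw [prod_const, hS.2]
  have hcard : (((Ico y (y + g)).powerset.filter (fun S => S.card = g / 2)).card : ℝ) ≤
      2 ^ g := by
    have h2 : ((Ico y (y + g)).powerset.filter (fun S => S.card = g / 2)).card ≤ 2 ^ g := by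
      refine (card_le_card (filter_subset _ _)).trans ?_
      rw [card_powerset, Nat.card_Ico]
      refine Nat.pow_le_pow_right (by norm_num) (by omega)
    exact_mod_cast h2
  calc _ ≤ μ.real (⋃ S ∈ (Ico y (y + g)).powerset.filter (fun S => S.card = g / 2),
        ⋂ m ∈ S, E m) := measureReal_mono hcov (measure_ne_top _ _)
    _ ≤ ∑ S ∈ (Ico y (y + g)).powerset.filter (fun S => S.card = g / 2),
        μ.real (⋂ m ∈ S, E m) := measureReal_biUnion_finset_le _ _
    _ ≤ ∑ _S ∈ (Ico y (y + g)).powerset.filter (fun S => S.card = g / 2),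
        (1 / Real.log N0) ^ (g / 2) := sum_le_sum hone
    _ = (((Ico y (y + g)).powerset.filter (fun S => S.card = g / 2)).card : ℝ) *
        (1 / Real.log N0) ^ (g / 2) := by rw [sum_const, nsmul_eq_mul]
    _ ≤ 2 ^ g * (1 / Real.log N0) ^ (g / 2) :=
        mul_le_mul_of_nonneg_right hcard (by positivity)

theorem fam_le [IsProbabilityMeasure μ] (hE : ∀ m, MeasurableSet (E m)) (hi : iIndepSet E μ)
    (X : ℕ) (V : Finset ℕ) {c : ℝ} (h0 : 0 ≤ c) (h1 : c ≤ 1) (hc : ∀ m ∈ V, c ≤ μ.real (E m))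
    (g h : ℕ) (hg : (1 - c) ^ g ≤ Real.exp (-2)) (C : ℕ → Finset ℕ → Finset ℕ)
    (hC : ∀ j G, C j G ⊆ V)
    (hd : ∀ G, ∀ i < 8 * h, ∀ j < 8 * h, i ≠ j → Disjoint (C i G) (C j G)) :
    μ.real {ω | (∀ j < 8 * h, g ≤ (C j (tr E X V ω)).card) ∧
      (∀ S : Finset ℕ, (∀ j ∈ S, j < 8 * h ∧ ∃ q ∈ C j (tr E X V ω), ω ∈ E q) → S.card < h)} ≤
      Real.exp (-h) := by
  classical
  refine le_trans (measureReal_mono ?_ (measure_ne_top _ _)) (fam_le0 hE hi X V h0 h1 hc g h hg C hC hd)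
  rintro ω ⟨h2, h3⟩
  refine ⟨h2, h3 _ fun j hj => ?_⟩
  rw [mem_filter, mem_range] at hj
  exact hj

theorem dens_le [IsProbabilityMeasure μ] (hi : iIndepSet E μ)
    (hp : ∀ m, 3 ≤ m → μ.real (E m) = 1 / Real.log m) {N0 y g : ℕ} (h3 : 3 ≤ N0) (hy : N0 ≤ y) :
    μ.real {ω | ∃ S : Finset ℕ, S ⊆ Ico y (y + g) ∧ g < 2 * S.card ∧ ∀ m ∈ S, ω ∈ E m} ≤
      2 ^ g * (1 / Real.log N0) ^ (g / 2) := by
  classical
  refine le_trans (measureReal_mono ?_ (measure_ne_top _ _)) (dens_le0 hi hp h3 hy)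
  rintro ω ⟨S, h1, h2, h4⟩
  rw [Set.mem_ofPred_eq]
  have h5 : S.card ≤ ((Ico y (y + g)).filter (fun m => ω ∈ E m)).card :=
    card_le_card fun m hm => mem_filter.2 ⟨h1 hm, h4 m hm⟩
  omega

end Pool.Agent.CP70
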