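import Pool.Agent.CP70.Blk
import Pool.Agent.CP70.Fam
import Pool.Agent.CP25.Bound

/-!
# CP70/Bnd: the bad events and their probabilities
-/

set_option autoImplicit false

namespace Pool.Agent.CP70

open MeasureTheory ProbabilityTheory Finset Filter Topology Pool.Agent.CP25 Pool.Agent.CP69
open Pool.Agent.CM69 (tr mem_tr real_biInter key)

variable {Ω : Type*} [mΩ : MeasurableSpace Ω] {μ : Measure Ω} {E : ℕ → Set Ω}

def A1 (E : ℕ → Set Ω) (g x h0 : ℕ) : Set Ω :=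
  {ω | ∀ S : Finset ℕ, (∀ t ∈ S, t < 8 * h0 ∧
    ∃ q ∈ Ico (x + 4 * g * t) (x + 4 * g * t + g), ω ∈ E q) → S.card < h0}

def A2 (E : ℕ → Set Ω) (n g x T L h1 : ℕ) : Set Ω :=
  {ω | (∀ j < 8 * h1, g ≤
      (grp g j (Pset n g x T L (tr E (n ^ 2) (Icc (x + n / 2) (x + n + L)) ω))).card) ∧
    ∀ S : Finset ℕ, (∀ j ∈ S, j < 8 * h1 ∧
      ∃ q ∈ grp g j (Pset n g x T L (tr E (n ^ 2) (Icc (x + n / 2) (x + n + L)) ω)), ω ∈ E q) →
      S.card < h1}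

def A3 (E : ℕ → Set Ω) (n g x L w v c h : ℕ) : Set Ω :=
  {ω | (∀ j < 8 * h, g ≤
      (grp g j (Q1x n x L w v c (tr E (n ^ 2) (Icc v (v + w)) ω))).card) ∧
    ∀ S : Finset ℕ, (∀ j ∈ S, j < 8 * h ∧
      ∃ q ∈ grp g j (Q1x n x L w v c (tr E (n ^ 2) (Icc v (v + w)) ω)), ω ∈ E q) → S.card < h}

def A4 (E : ℕ → Set Ω) (n g x L w v h : ℕ) : Set Ω :=
  {ω | (∀ j < 8 * h, g ≤
      (grp g j (Q2x n x L w v (tr E (n ^ 2) (Icc v (v + w)) ω))).card) ∧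
    ∀ S : Finset ℕ, (∀ j ∈ S, j < 8 * h ∧
      ∃ q ∈ grp g j (Q2x n x L w v (tr E (n ^ 2) (Icc v (v + w)) ω)), ω ∈ E q) → S.card < h}

def DD (E : ℕ → Set Ω) (g y : ℕ) : Set Ω :=
  {ω | ∃ S : Finset ℕ, S ⊆ Ico y (y + g) ∧ g < 2 * S.card ∧ ∀ m ∈ S, ω ∈ E m}

def UX (E : ℕ → Set Ω) (n Xm : ℕ) : Set Ω := {ω | n < 2 * (cn (RS E ω) Xm + 2)}

omit mΩ in
theorem ty_of {n g k Xm : ℕ} (hn : 128 ≤ n) (hk : 1 ≤ k) (hg : 1 ≤ g) {ω : Ω}
    (h1 : ∀ y < n ^ 2, 8 ≤ y → ω ∉ W1 E k y) (h2 : ∀ y < n ^ 2, 8 ≤ y → ω ∉ W2 E k y)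
    (h3 : ∀ y < n ^ 2 + 1, n ≤ y → ω ∉ UU E y) (h4 : ω ∉ UX E n Xm)
    (h5 : ∀ y < n ^ 2, n ≤ y → ω ∉ DD E g y) : Ty (RS E ω) n g k Xm := by
  classical
  refine ⟨?_, ?_, ?_, ?_⟩
  · intro y hy hyk
    have g1 := h1 y (by omega) hy
    have g2 := h2 y (by omega) hy
    simp only [W1, Set.mem_ofPred_eq, not_forall, not_not, mem_Ico] at g1
    simp only [W2, Set.mem_ofPred_eq, not_forall, mem_Ico] at g2
    obtain ⟨m, ⟨ha, hb⟩, hc⟩ := g1
    obtain ⟨m', ⟨ha', hb'⟩, hc'⟩ := g2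
    exact ⟨⟨m, hc, ha, hb⟩, ⟨m', hc', ha', hb'⟩⟩
  · intro y hy hyg
    have g1 := h5 y (by omega) hy
    by_contra hcon
    apply g1
    refine ⟨(Ico y (y + g)).filter (fun m => m ∈ RS E ω), filter_subset _ _, ?_, ?_⟩
    · have h6 := cn_split (A := RS E ω) (x := y) (y := y + g) (by omega)
      have h7 : cV (RS E ω) (Ico y (y + g)) =
          ((Ico y (y + g)).filter (fun m => m ∈ RS E ω)).card := by
        unfold cV
        congr
      omega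
    · intro m hm
      exact (mem_filter.1 hm).2
  · intro y hy hyn
    have g1 := h3 y (by omega) hy
    simp only [UU, Set.mem_ofPred_eq, not_lt] at g1
    exact g1
  · simp only [UX, Set.mem_ofPred_eq, not_lt] at h4
    exact h4

omit mΩ in
theorem good70 {n g k L Xm T h J : ℕ} (hS : Sz n g k L Xm) (hT : T = 8 * (8 * (8 * h * g) * g))
    (hL : 4 * g * T = L) (hJ : n + J * L ≤ Xm) (hh : 1 ≤ h) {ω : Ω}
    (h1 : ∀ y < n ^ 2, 8 ≤ y → ω ∉ W1 E k y) (h2 : ∀ y < n ^ 2, 8 ≤ y → ω ∉ W2 E k y)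
    (h3 : ∀ y < n ^ 2 + 1, n ≤ y → ω ∉ UU E y) (h4 : ω ∉ UX E n Xm)
    (h5 : ∀ y < n ^ 2, n ≤ y → ω ∉ DD E g y)
    (h6 : ∀ i < J, ω ∉ A1 E g (n + i * L) (8 * (8 * h * g) * g))
    (h7 : ∀ i < J, ω ∉ A2 E n g (n + i * L) T L (8 * h * g))
    (h8 : ∀ i < J, ∀ v < n ^ 2 + 1, n + i * L + n + L < v → v + (L * k + k + L) ≤ n ^ 2 →
      ∀ c < n + 1, ω ∉ A3 E n g (n + i * L) L (L * k + k + L) v c h)
    (h9 : ∀ i < J, ∀ v < n ^ 2 + 1, n + i * L + n + L < v → v + (L * k + k + L) ≤ n ^ 2 →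
      ω ∉ A4 E n g (n + i * L) L (L * k + k + L) v h) :
    J * h ≤ num1 (RS E ω) n ∧ J * h ≤ num2 (RS E ω) n := by
  classical
  have hk8 := hS.k8
  have hw := hS.hw
  have hg1 := hS.g1
  have hTy : Ty (RS E ω) n g k Xm := ty_of (by omega) (by omega) hg1 h1 h2 h3 h4 h5
  have hiL : ∀ i < J, i * L + L ≤ J * L := by
    intro i hi
    have h10 : (i + 1) * L ≤ J * L := Nat.mul_le_mul_right _ hi
    have e : (i + 1) * L = i * L + L := by ring
    omega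
  have hb := fun i (hi : i < J) => by
    have h10 := hiL i hi
    refine blk (A := RS E ω) (x := n + i * L) (T := T) (h := h) hS hTy (by omega) (by omega)
      (by omega) hh ?_ ?_ ?_ ?_
    · have g1 := h6 i hi
      simp only [A1, Set.mem_ofPred_eq, not_forall, not_lt] at g1
      obtain ⟨S, hS1, hS2⟩ := g1
      refine ⟨S, fun t ht => ?_, hS2⟩
      rw [hT]
      exact hS1 t ht
    · intro hc
      have g1 := h7 i hi
      simp only [A2, Set.mem_ofPred_eq, not_and, tr_eq, not_forall, not_lt] at g1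
      obtain ⟨S, hS1, hS2⟩ := g1 hc
      exact ⟨S, hS1, hS2⟩
    · intro v hv1 hv2 hc
      have hcv : cV (RS E ω) (Icc v (v + (L * k + k + L))) < n + 1 := by
        unfold cV
        calc _ ≤ (Icc v (v + (L * k + k + L))).card := card_le_card (filter_subset _ _)
          _ = L * k + k + L + 1 := by rw [Nat.card_Icc]; omega
          _ < n + 1 := by omega
      have g1 := h8 i hi v (by omega) (by omega) hv2 _ hcv
      simp only [A3, Set.mem_ofPred_eq, not_and, tr_eq, not_forall, not_lt] at g1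
      obtain ⟨S, hS1, hS2⟩ := g1 hc
      exact ⟨S, hS1, hS2⟩
    · intro v hv1 hv2 hc
      have g1 := h9 i hi v (by omega) (by omega) hv2
      simp only [A4, Set.mem_ofPred_eq, not_and, tr_eq, not_forall, not_lt] at g1
      obtain ⟨S, hS1, hS2⟩ := g1 hc
      exact ⟨S, hS1, hS2⟩
  obtain ⟨I, hI1, hI2⟩ := sum_blk (P := fun l => l < n ∧ Ok1 (RS E ω) n l)
    (f := fun l => el (RS E ω) (n - l)) (J := J) (h := h) (L := L) (x := n)
    (fun i hi => (hb i hi).1)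
  obtain ⟨I', hI1', hI2'⟩ := sum_blk (P := fun l => l < n ∧ Ok2 (RS E ω) n l)
    (f := fun l => el (RS E ω) (n - l)) (J := J) (h := h) (L := L) (x := n)
    (fun i hi => (hb i hi).2)
  exact ⟨le_num1 hI1 hI2, le_num2 hI1' hI2'⟩

end Pool.Agent.CP70
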