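import Pool.Agent.CP70.Bnd

/-!
# CP70/Bnd2: the probability of the bad event
-/

set_option autoImplicit false

namespace Pool.Agent.CP70

open MeasureTheory ProbabilityTheory Finset Filter Topology Pool.Agent.CP25 Pool.Agent.CP69
open Pool.Agent.CM69 (tr mem_tr real_biInter key)

variable {Ω : Type*} [mΩ : MeasurableSpace Ω] {μ : Measure Ω} {E : ℕ → Set Ω}

theorem fam_cc [IsProbabilityMeasure μ] (hE : ∀ m, MeasurableSet (E m)) (hi : iIndepSet E μ)
    (hp : ∀ m, 3 ≤ m → μ.real (E m) = 1 / Real.log m) {n g h : ℕ} (hn : 3 ≤ n)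
    (hg : (1 - 1 / (3 * Real.log n)) ^ g ≤ Real.exp (-2)) (X : ℕ) (V : Finset ℕ)
    (hV : ∀ m ∈ V, 3 ≤ m ∧ m ≤ n ^ 3) (C : ℕ → Finset ℕ → Finset ℕ) (hC : ∀ j G, C j G ⊆ V)
    (hd : ∀ G, ∀ i < 8 * h, ∀ j < 8 * h, i ≠ j → Disjoint (C i G) (C j G)) :
    μ.real {ω | (∀ j < 8 * h, g ≤ (C j (tr E X V ω)).card) ∧
      (∀ S : Finset ℕ, (∀ j ∈ S, j < 8 * h ∧ ∃ q ∈ C j (tr E X V ω), ω ∈ E q) → S.card < h)} ≤
      Real.exp (-h) := by
  refine fam_le hE hi X V (cc_pos hn).1 (by linarith [(cc_pos hn).2]) (fun m hm => ?_) g h hg C hC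
    hd
  rw [hp m (hV m hm).1]
  exact cc_le hn (hV m hm).1 (hV m hm).2

theorem grp_dis {g i j : ℕ} {S : Finset ℕ} (h : i ≠ j) : Disjoint (grp g i S) (grp g j S) := by
  rw [disjoint_left]
  intro x hx hx'
  exact h (grp_disj hx hx')

theorem a1_le [IsProbabilityMeasure μ] (hE : ∀ m, MeasurableSet (E m)) (hi : iIndepSet E μ)
    (hp : ∀ m, 3 ≤ m → μ.real (E m) = 1 / Real.log m) {n g x h0 : ℕ} (hn : 3 ≤ n)
    (hg : (1 - 1 / (3 * Real.log n)) ^ g ≤ Real.exp (-2)) (hx : 3 ≤ x)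
    (hxn : x + 4 * g * (8 * h0) ≤ n ^ 3) :
    μ.real (A1 E g x h0) ≤ Real.exp (-h0) := by
  classical
  have hcell : ∀ t < 8 * h0, 4 * g * t + 4 * g ≤ 4 * g * (8 * h0) := by
    intro t ht
    have h5 : 4 * g * (t + 1) ≤ 4 * g * (8 * h0) := Nat.mul_le_mul_left _ ht
    have e : 4 * g * (t + 1) = 4 * g * t + 4 * g := by ring
    omega
  have hf := fam_cc hE hi hp (h := h0) hn hg 0 (Ico x (x + 4 * g * (8 * h0)))
    (fun m hm => by rw [mem_Ico] at hm; omega)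
    (fun j _ => if j < 8 * h0 then Ico (x + 4 * g * j) (x + 4 * g * j + g) else ∅)
    (fun j G => by
      by_cases hj : j < 8 * h0
      · simp only [if_pos hj]
        intro m hm
        rw [mem_Ico] at hm ⊢
        have := hcell j hj
        omega
      · simp only [if_neg hj]
        exact empty_subset _)
    (fun G i hi j hj hij => by
      simp only [if_pos hi, if_pos hj]
      rw [disjoint_left]
      intro m hm hm'
      rw [mem_Ico] at hm hm'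
      rcases lt_trichotomy i j with h7 | h7 | h7
      · have h8 : 4 * g * (i + 1) ≤ 4 * g * j := Nat.mul_le_mul_left _ h7
        have e : 4 * g * (i + 1) = 4 * g * i + 4 * g := by ring
        omega
      · exact hij h7
      · have h8 : 4 * g * (j + 1) ≤ 4 * g * i := Nat.mul_le_mul_left _ h7
        have e : 4 * g * (j + 1) = 4 * g * j + 4 * g := by ring
        omega)
  refine le_trans (measureReal_mono ?_ (measure_ne_top _ _)) hf
  intro ω hω
  refine ⟨fun j hj => ?_, fun S hS => ?_⟩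
  · simp only [if_pos hj]
    rw [Nat.card_Ico]
    omega
  · refine hω S fun t ht => ?_
    obtain ⟨h1, h2⟩ := hS t ht
    simp only [if_pos h1] at h2
    exact ⟨h1, h2⟩

theorem a2_le [IsProbabilityMeasure μ] (hE : ∀ m, MeasurableSet (E m)) (hi : iIndepSet E μ)
    (hp : ∀ m, 3 ≤ m → μ.real (E m) = 1 / Real.log m) {n g x T L h1 : ℕ} (hn : 3 ≤ n)
    (hg : (1 - 1 / (3 * Real.log n)) ^ g ≤ Real.exp (-2)) (hx : 3 ≤ x)
    (hxn : x + n + L ≤ n ^ 3) :
    μ.real (A2 E n g x T L h1) ≤ Real.exp (-h1) := by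
  classical
  exact fam_cc hE hi hp hn hg (n ^ 2) (Icc (x + n / 2) (x + n + L))
    (fun m hm => by rw [mem_Icc] at hm; omega) (fun j G => grp g j (Pset n g x T L G))
    (fun j G => (grp_subset _ _ _).trans (filter_subset _ _)) (fun G i _ j _ hij => grp_dis hij)

theorem a3_le [IsProbabilityMeasure μ] (hE : ∀ m, MeasurableSet (E m)) (hi : iIndepSet E μ)
    (hp : ∀ m, 3 ≤ m → μ.real (E m) = 1 / Real.log m) {n g x L w v c h : ℕ} (hn : 3 ≤ n)
    (hg : (1 - 1 / (3 * Real.log n)) ^ g ≤ Real.exp (-2)) (hx : 3 ≤ v)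
    (hxn : v + w ≤ n ^ 3) :
    μ.real (A3 E n g x L w v c h) ≤ Real.exp (-h) := by
  classical
  exact fam_cc hE hi hp hn hg (n ^ 2) (Icc v (v + w))
    (fun m hm => by rw [mem_Icc] at hm; omega) (fun j G => grp g j (Q1x n x L w v c G))
    (fun j G => (grp_subset _ _ _).trans (filter_subset _ _)) (fun G i _ j _ hij => grp_dis hij)

theorem a4_le [IsProbabilityMeasure μ] (hE : ∀ m, MeasurableSet (E m)) (hi : iIndepSet E μ)
    (hp : ∀ m, 3 ≤ m → μ.real (E m) = 1 / Real.log m) {n g x L w v h : ℕ} (hn : 3 ≤ n)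
    (hg : (1 - 1 / (3 * Real.log n)) ^ g ≤ Real.exp (-2)) (hx : 3 ≤ v)
    (hxn : v + w ≤ n ^ 3) :
    μ.real (A4 E n g x L w v h) ≤ Real.exp (-h) := by
  classical
  exact fam_cc hE hi hp hn hg (n ^ 2) (Icc v (v + w))
    (fun m hm => by rw [mem_Icc] at hm; omega) (fun j G => grp g j (Q2x n x L w v G))
    (fun j G => (grp_subset _ _ _).trans (filter_subset _ _)) (fun G i _ j _ hij => grp_dis hij)

theorem ux_le [IsProbabilityMeasure μ] (hE : ∀ m, MeasurableSet (E m)) (hi : iIndepSet E μ)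
    {n Xm : ℕ} (hn : 16 ≤ n) (hS : ∑ m ∈ range Xm, μ.real (E m) ≤ n / 16) :
    μ.real (UX E n Xm) ≤ Real.exp (-(n / 4)) := by
  classical
  refine le_trans (measureReal_mono ?_ (measure_ne_top _ _))
    (Pool.Agent.GM53.chernoff_S hE hi (range Xm) (n / 4))
  intro ω hω
  rw [Set.mem_ofPred_eq]
  have h1 : ∑ m ∈ range Xm, (E m).indicator (fun _ => (1 : ℝ)) ω = (cn (RS E ω) Xm : ℝ) := by
    unfold cn
    rw [card_filter]
    push_cast
    refine sum_congr rfl fun m _ => ?_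
    by_cases h : ω ∈ E m
    · rw [Set.indicator_of_mem h, if_pos (by exact h)]
    · rw [Set.indicator_of_notMem h, if_neg (by exact h)]
  rw [h1]
  have h2 : n < 2 * (cn (RS E ω) Xm + 2) := hω
  have h3 : (n : ℝ) ≤ 2 * (cn (RS E ω) Xm + 2) := by
    exact_mod_cast h2.le
  have h4 : (16 : ℝ) ≤ n := by exact_mod_cast hn
  linarith

theorem bu {ι : Type*} [IsProbabilityMeasure μ] (S : Finset ι) (s : ι → Set Ω) {r N : ℝ}
    (h : ∀ i ∈ S, μ.real (s i) ≤ r) (hN : (S.card : ℝ) ≤ N) (hr : 0 ≤ r) :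
    μ.real (⋃ i ∈ S, s i) ≤ N * r := by
  calc _ ≤ ∑ i ∈ S, μ.real (s i) := measureReal_biUnion_finset_le _ _
    _ ≤ ∑ _i ∈ S, r := sum_le_sum h
    _ = (S.card : ℝ) * r := by rw [sum_const, nsmul_eq_mul]
    _ ≤ N * r := mul_le_mul_of_nonneg_right hN hr

/-- The bad event for `n`. -/
def Bad70 (E : ℕ → Set Ω) (n g k L Xm T h J : ℕ) : Set Ω :=
  (⋃ y ∈ (range (n ^ 2)).filter (fun y => 8 ≤ y), W1 E k y) ∪
  ((⋃ y ∈ (range (n ^ 2)).filter (fun y => 8 ≤ y), W2 E k y) ∪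
  ((⋃ y ∈ (range (n ^ 2 + 1)).filter (fun y => n ≤ y), UU E y) ∪
  (UX E n Xm ∪
  ((⋃ y ∈ (range (n ^ 2)).filter (fun y => n ≤ y), DD E g y) ∪
  ((⋃ i ∈ range J, A1 E g (n + i * L) (8 * (8 * h * g) * g)) ∪
  ((⋃ i ∈ range J, A2 E n g (n + i * L) T L (8 * h * g)) ∪
  ((⋃ i ∈ range J, ⋃ v ∈ (range (n ^ 2 + 1)).filter (fun v => n + i * L + n + L < v ∧
    v + (L * k + k + L) ≤ n ^ 2), ⋃ c ∈ range (n + 1),
    A3 E n g (n + i * L) L (L * k + k + L) v c h) ∪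
  (⋃ i ∈ range J, ⋃ v ∈ (range (n ^ 2 + 1)).filter (fun v => n + i * L + n + L < v ∧
    v + (L * k + k + L) ≤ n ^ 2), A4 E n g (n + i * L) L (L * k + k + L) v h))))))))

omit mΩ in
theorem good_of_notMem70 {n g k L Xm T h J : ℕ} (hS : Sz n g k L Xm)
    (hT : T = 8 * (8 * (8 * h * g) * g))
    (hL : 4 * g * T = L) (hJ : n + J * L ≤ Xm) (hh : 1 ≤ h) {ω : Ω}
    (hb : ω ∉ Bad70 E n g k L Xm T h J) :
    J * h ≤ num1 (RS E ω) n ∧ J * h ≤ num2 (RS E ω) n := by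
  unfold Bad70 at hb
  simp only [Set.mem_union, Set.mem_iUnion, mem_filter, mem_range, not_or, not_exists,
    and_imp] at hb
  obtain ⟨h1, h2, h3, h4, h5, h6, h7, h8, h9⟩ := hb
  exact good70 hS hT hL hJ hh h1 h2 h3 h4 h5 h6 h7 h8 h9

theorem bad70_le [IsProbabilityMeasure μ] (hE : ∀ m, MeasurableSet (E m)) (hi : iIndepSet E μ)
    (hp : ∀ m, 3 ≤ m → μ.real (E m) = 1 / Real.log m) {n g k L Xm T h J : ℕ}
    (hS : Sz n g k L Xm) (hT : T = 8 * (8 * (8 * h * g) * g))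
    (hL : 4 * g * T = L) (hJ : n + J * L ≤ Xm) (hJn : J ≤ n ^ 2)
    (hN3 : ∀ y, n ≤ y → ∑ m ∈ range (4 * y), μ.real (E m) ≤ y / 8)
    (hN4 : ∑ m ∈ range Xm, μ.real (E m) ≤ n / 16) {r : ℝ}
    (hg : (1 - 1 / (3 * Real.log n)) ^ g ≤ Real.exp (-2))
    (r1 : (1 - 1 / (3 * Real.log n)) ^ k ≤ r) (r2 : Real.exp (-(n / 4)) ≤ r)
    (r3 : 2 ^ g * (1 / Real.log n) ^ (g / 2) ≤ r) (r4 : Real.exp (-h) ≤ r) :
    μ.real (Bad70 E n g k L Xm T h J) ≤ 20 * (n : ℝ) ^ 5 * r := by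
  have hk8 := hS.k8
  have hw := hS.hw
  have hg1 := hS.g1
  have hX := hS.hX
  have hn3 : 128 ≤ n := by omega
  have hr0 : 0 ≤ r := (Real.exp_pos _).le.trans r4
  have hn23 : 4 * n ^ 2 ≤ n ^ 3 := by
    have e : n ^ 3 = n * n ^ 2 := by ring
    rw [e]
    exact Nat.mul_le_mul_right _ (by omega)
  have hnn2 : 4 * n ≤ n ^ 2 := by
    have e : n ^ 2 = n * n := by ring
    rw [e]
    exact Nat.mul_le_mul_right _ (by omega)
  have hXn : 2 * ((Xm + 2 * n) * 8) ≤ n ^ 2 := by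
    have h1 : (Xm + 2 * n) * 8 ≤ (Xm + 2 * n) * k := Nat.mul_le_mul_left _ hk8
    omega
  have hiL : ∀ i < J, i * L + L ≤ J * L := by
    intro i hi
    have h10 : (i + 1) * L ≤ J * L := Nat.mul_le_mul_right _ hi
    have e : (i + 1) * L = i * L + L := by ring
    omega
  have hh1 : h ≤ 8 * h * g := by
    calc h = h * 1 := by ring
      _ ≤ 8 * h * g := Nat.mul_le_mul (by omega) hg1
  have hh0 : h ≤ 8 * (8 * h * g) * g := by
    calc h ≤ 8 * h * g := hh1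
      _ = 8 * h * g * 1 := by ring
      _ ≤ 8 * (8 * h * g) * g := Nat.mul_le_mul (by omega) hg1
  have ee : ∀ m : ℕ, h ≤ m → Real.exp (-(m : ℝ)) ≤ r := by
    intro m hm
    refine le_trans ?_ r4
    rw [Real.exp_le_exp]
    have : (h : ℝ) ≤ m := by exact_mod_cast hm
    linarith
  have N0 : (128 : ℝ) ≤ n := by exact_mod_cast hn3
  have N1 : (1 : ℝ) ≤ n := by linarith
  have c2 : ((n ^ 2 : ℕ) : ℝ) ≤ (n : ℝ) ^ 5 := by
    push_cast
    exact pow_le_pow_right₀ N1 (by norm_num)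
  have c21 : ((n ^ 2 + 1 : ℕ) : ℝ) ≤ (n : ℝ) ^ 5 := by
    push_cast
    have h1 : (n : ℝ) ^ 5 = n ^ 2 * n ^ 3 := by ring
    have h2 : (1 : ℝ) ≤ (n : ℝ) ^ 2 := one_le_pow₀ N1
    have h3 : (2 : ℝ) ≤ (n : ℝ) ^ 3 := by
      calc (2 : ℝ) ≤ n := by linarith
        _ = (n : ℝ) ^ 1 := by ring
        _ ≤ (n : ℝ) ^ 3 := pow_le_pow_right₀ N1 (by norm_num)
    rw [h1]
    nlinarith
  have cJ : ((range J).card : ℝ) ≤ (n : ℝ) ^ 2 := by
    rw [card_range]
    exact_mod_cast hJn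
  have cJ5 : ((range J).card : ℝ) ≤ (n : ℝ) ^ 5 :=
    cJ.trans (pow_le_pow_right₀ N1 (by norm_num))
  have cf : ∀ (m : ℕ) (P : ℕ → Prop) [DecidablePred P],
      (((range m).filter P).card : ℝ) ≤ (m : ℝ) := by
    intro m P _
    have h1 : ((range m).filter P).card ≤ m := by
      calc _ ≤ (range m).card := card_le_card (filter_subset _ _)
        _ = m := card_range m
    exact_mod_cast h1
  have b1 : μ.real (⋃ y ∈ (range (n ^ 2)).filter (fun y => 8 ≤ y), W1 E k y) ≤ (n : ℝ) ^ 5 * r := by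
    refine bu _ _ (fun y hy => ?_) ((cf _ _).trans c2) hr0
    rw [mem_filter, mem_range] at hy
    exact (w1_le hE hi hp (by omega) (by omega) (by omega)).trans r1
  have b2 : μ.real (⋃ y ∈ (range (n ^ 2)).filter (fun y => 8 ≤ y), W2 E k y) ≤ (n : ℝ) ^ 5 * r := by
    refine bu _ _ (fun y hy => ?_) ((cf _ _).trans c2) hr0
    rw [mem_filter, mem_range] at hy
    exact (w2_le hi hp (by omega) (by omega)).trans r1
  have b3 : μ.real (⋃ y ∈ (range (n ^ 2 + 1)).filter (fun y => n ≤ y), UU E y) ≤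
      (n : ℝ) ^ 5 * r := by
    refine bu _ _ (fun y hy => ?_) ((cf _ _).trans c21) hr0
    rw [mem_filter, mem_range] at hy
    refine (uu_le hE hi (by omega) (hN3 y hy.2)).trans (le_trans ?_ r2)
    rw [Real.exp_le_exp]
    have : (n : ℝ) ≤ y := by exact_mod_cast hy.2
    linarith
  have b4 : μ.real (UX E n Xm) ≤ (n : ℝ) ^ 5 * r := by
    refine (ux_le hE hi (by omega) hN4).trans (r2.trans ?_)
    have h1 : (1 : ℝ) ≤ (n : ℝ) ^ 5 := one_le_pow₀ N1
    nlinarith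
  have b5 : μ.real (⋃ y ∈ (range (n ^ 2)).filter (fun y => n ≤ y), DD E g y) ≤
      (n : ℝ) ^ 5 * r := by
    refine bu _ _ (fun y hy => ?_) ((cf _ _).trans c2) hr0
    rw [mem_filter, mem_range] at hy
    exact (dens_le hi hp (by omega) hy.2).trans r3
  have b6 : μ.real (⋃ i ∈ range J, A1 E g (n + i * L) (8 * (8 * h * g) * g)) ≤
      (n : ℝ) ^ 5 * r := by
    refine bu _ _ (fun i hi' => ?_) cJ5 hr0
    rw [mem_range] at hi'
    have h1 := hiL i hi'
    refine (a1_le hE hi hp (n := n) (by omega) hg (by omega) ?_).trans (ee _ hh0)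
    rw [← hT, hL]
    omega
  have b7 : μ.real (⋃ i ∈ range J, A2 E n g (n + i * L) T L (8 * h * g)) ≤
      (n : ℝ) ^ 5 * r := by
    refine bu _ _ (fun i hi' => ?_) cJ5 hr0
    rw [mem_range] at hi'
    have h1 := hiL i hi'
    exact (a2_le hE hi hp (n := n) (by omega) hg (by omega) (by omega)).trans (ee _ hh1)
  have q1 : (n : ℝ) + 1 ≤ 2 * n := by linarith
  have q2 : (n : ℝ) ^ 2 + 1 ≤ 2 * n ^ 2 := by
    have : (1 : ℝ) ≤ (n : ℝ) ^ 2 := one_le_pow₀ N1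
    linarith
  have b8 : μ.real (⋃ i ∈ range J, ⋃ v ∈ (range (n ^ 2 + 1)).filter
      (fun v => n + i * L + n + L < v ∧ v + (L * k + k + L) ≤ n ^ 2), ⋃ c ∈ range (n + 1),
      A3 E n g (n + i * L) L (L * k + k + L) v c h) ≤
      (n : ℝ) ^ 2 * (2 * n ^ 2 * (2 * n * r)) := by
    refine bu _ _ (fun i hi' => ?_) cJ (by positivity)
    refine bu _ _ (fun v hv => ?_) ((cf _ _).trans (by push_cast; exact q2)) (by positivity)
    refine bu _ _ (fun c _ => ?_) (by rw [card_range]; push_cast; exact q1) hr0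
    rw [mem_filter, mem_range] at hv
    exact (a3_le hE hi hp (n := n) (by omega) hg (by omega) (by omega)).trans r4
  have b9 : μ.real (⋃ i ∈ range J, ⋃ v ∈ (range (n ^ 2 + 1)).filter
      (fun v => n + i * L + n + L < v ∧ v + (L * k + k + L) ≤ n ^ 2),
      A4 E n g (n + i * L) L (L * k + k + L) v h) ≤
      (n : ℝ) ^ 2 * (2 * n ^ 2 * r) := by
    refine bu _ _ (fun i hi' => ?_) cJ (by positivity)
    refine bu _ _ (fun v hv => ?_) ((cf _ _).trans (by push_cast; exact q2)) hr0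
    rw [mem_filter, mem_range] at hv
    exact (a4_le hE hi hp (n := n) (by omega) hg (by omega) (by omega)).trans r4
  have htot : μ.real (Bad70 E n g k L Xm T h J) ≤ (n : ℝ) ^ 5 * r + ((n : ℝ) ^ 5 * r +
      ((n : ℝ) ^ 5 * r + ((n : ℝ) ^ 5 * r + ((n : ℝ) ^ 5 * r + ((n : ℝ) ^ 5 * r +
      ((n : ℝ) ^ 5 * r + ((n : ℝ) ^ 2 * (2 * n ^ 2 * (2 * n * r)) +
      (n : ℝ) ^ 2 * (2 * n ^ 2 * r)))))))) := by
    unfold Bad70
    refine (measureReal_union_le _ _).trans (add_le_add b1 ?_)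
    refine (measureReal_union_le _ _).trans (add_le_add b2 ?_)
    refine (measureReal_union_le _ _).trans (add_le_add b3 ?_)
    refine (measureReal_union_le _ _).trans (add_le_add b4 ?_)
    refine (measureReal_union_le _ _).trans (add_le_add b5 ?_)
    refine (measureReal_union_le _ _).trans (add_le_add b6 ?_)
    refine (measureReal_union_le _ _).trans (add_le_add b7 ?_)
    exact (measureReal_union_le _ _).trans (add_le_add b8 b9)
  have z0 : 0 ≤ (n : ℝ) ^ 4 * r := by positivity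
  have z1 : (n : ℝ) ^ 4 * r ≤ (n : ℝ) ^ 5 * r :=
    mul_le_mul_of_nonneg_right (pow_le_pow_right₀ N1 (by norm_num)) hr0
  have z2 : (n : ℝ) ^ 2 * (2 * n ^ 2 * (2 * n * r)) = 4 * ((n : ℝ) ^ 5 * r) := by ring
  have z3 : (n : ℝ) ^ 2 * (2 * n ^ 2 * r) = 2 * ((n : ℝ) ^ 4 * r) := by ring
  rw [z2, z3] at htot
  nlinarith

end Pool.Agent.CP70
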