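import Pool.Agent.CP69.Cnt

/-!
# CP70/DetX: the deterministic part for a block `[x, x + L)` of the elements `a`

`Den A n g`: every window of length `g` in `[n, n^2]` has at most `g / 2` elements. `Pset`: the numbers `p` given by the first elements of the
cells `[x + 4 g t, x + 4 g t + g)`. They are at distance `≥ g`.
-/

set_option autoImplicit false

open Finset

namespace Pool.Agent.CP70

open Pool.Agent.CP25 Pool.Agent.CP69

variable {A : Set ℕ}

/-- every window of length `g` has at most `g / 2` elements -/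
def Den (A : Set ℕ) (n g : ℕ) : Prop := ∀ y, n ≤ y → y + g ≤ n ^ 2 → 2 * cn A (y + g) ≤ 2 * cn A y + g

theorem Den.mul {n g : ℕ} (hD : Den A n g) {y : ℕ} (hy : n ≤ y) :
    ∀ j, y + j * g ≤ n ^ 2 → 2 * cn A (y + j * g) ≤ 2 * cn A y + j * g := by
  intro j
  induction j with
  | zero =>
    intro _
    simp
  | succ j ih =>
    intro h
    have e : (j + 1) * g = j * g + g := by ring
    rw [e] at h ⊢
    have h1 := ih (by omega)
    have h2 := hD (y + j * g) (by omega) (by omega)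
    have e2 : y + (j * g + g) = y + j * g + g := by ring
    rw [e2]
    omega

theorem Den.sp {n g : ℕ} (hD : Den A n g) {y z j : ℕ} (hy : n ≤ y) (h : y + j * g ≤ z)
    (hz : z ≤ n ^ 2) : 2 * cn A z + j * g + 2 * y ≤ 2 * cn A y + 2 * z := by
  have h1 := hD.mul hy j (by omega)
  have h2 := cn_le_add (A := A) h
  omega

/-- sizes -/
structure Sz (n g k L Xm : ℕ) : Prop where
  g1 : 1 ≤ g
  gL : 2 * g ≤ L
  k8 : 8 ≤ k
  hw : 16 * (L * k + k + L) ≤ n
  hX : 2 * ((Xm + 2 * n) * k) ≤ n ^ 2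

/-- properties of the set -/
structure Ty (A : Set ℕ) (n g k Xm : ℕ) : Prop where
  win : Win A k (n ^ 2)
  den : Den A n g
  uu : ∀ y, n ≤ y → y ≤ n ^ 2 → cn A (4 * y) + 2 ≤ y
  um : 2 * (cn A Xm + 2) ≤ n

open Classical in
noncomputable def Pset (n g x T L : ℕ) (G : Finset ℕ) : Finset ℕ :=
  (Icc (x + n / 2) (x + n + L)).filter (fun p => ∃ t < T, ∃ a ∈ G, x + 4 * g * t ≤ a ∧
    a < x + 4 * g * t + g ∧ (∀ a' ∈ G, x + 4 * g * t ≤ a' → a ≤ a') ∧
    p + cn (G : Set ℕ) a + 1 = n + a)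

open Classical in
noncomputable def Q1x (n x L w v c : ℕ) (G : Finset ℕ) : Finset ℕ :=
  (Icc v (v + w)).filter (fun q => ∃ a ∈ G, ∃ p ∈ G, ∃ b ∈ G, x ≤ a ∧ a < x + L ∧
    cn (G : Set ℕ) a + 1 < n ∧ v + w < b ∧
    p + cn (G : Set ℕ) a + 1 = n + a ∧ cn (G : Set ℕ) b + c + 1 = p ∧ q + p = b + 1)

open Classical in
noncomputable def Q2x (n x L w v : ℕ) (G : Finset ℕ) : Finset ℕ :=
  (Icc v (v + w)).filter (fun q => ∃ a ∈ G, ∃ p ∈ G, ∃ b ∈ G, x ≤ a ∧ a < x + L ∧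
    cn (G : Set ℕ) a + 1 < n ∧ b < v ∧
    p + cn (G : Set ℕ) a + 1 = n + a ∧ cn (G : Set ℕ) b + 1 = p ∧ q = b + p + 1)

theorem exists_first {lo hi : ℕ} (h : ∃ m, m ∈ A ∧ lo ≤ m ∧ m < hi) :
    ∃ a, a ∈ A ∧ lo ≤ a ∧ a < hi ∧ ∀ a' ∈ A, lo ≤ a' → a ≤ a' := by
  classical
  obtain ⟨m, hm, h1, h2⟩ := h
  have hex : ∃ m, m ∈ A ∧ lo ≤ m := ⟨m, hm, h1⟩
  refine ⟨Nat.find hex, (Nat.find_spec hex).1, (Nat.find_spec hex).2, ?_, ?_⟩
  · exact lt_of_le_of_lt (Nat.find_min' hex ⟨hm, h1⟩) h2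
  · intro a' ha' h3
    exact Nat.find_min' hex ⟨ha', h3⟩

section block

variable {n g k L Xm x T : ℕ}

theorem sz_facts (hS : Sz n g k L Xm) (hxX : x + L ≤ Xm) :
    32 * n ≤ n ^ 2 ∧ 2 * (x * k + 2 * (n * k)) ≤ n ^ 2 ∧ 8 * x ≤ x * k ∧ 8 * n ≤ n * k ∧
      L * 8 ≤ L * k ∧ 128 ≤ n := by
  have h1 : (x + 2 * n) * k ≤ (Xm + 2 * n) * k := Nat.mul_le_mul_right _ (by omega)
  have e : (x + 2 * n) * k = x * k + 2 * (n * k) := by ring
  have h2 : 8 * x ≤ x * k := by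
    rw [mul_comm]
    exact Nat.mul_le_mul_left _ hS.k8
  have h3 : 8 * n ≤ n * k := by
    rw [mul_comm]
    exact Nat.mul_le_mul_left _ hS.k8
  have h4 : L * 8 ≤ L * k := Nat.mul_le_mul_left _ hS.k8
  have h5 := hS.hX
  have h6 := hS.k8
  have h7 := hS.hw
  refine ⟨by omega, by omega, h2, h3, h4, by omega⟩

theorem rank_half (hT : Ty A n g k Xm) (hxX : x + L ≤ Xm) {a : ℕ} (ha : a < x + L) :
    2 * (cn A a + 2) ≤ n := by
  have h1 := cn_mono (A := A) (x := a) (y := Xm) (by omega)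
  have h2 := hT.um
  omega

/-- the spacing of the numbers `p` -/
theorem p_sp (hS : Sz n g k L Xm) (hT : Ty A n g k Xm) (hx : n ≤ x) (hxX : x + L ≤ Xm)
    {a a' p p' : ℕ} (ha : x ≤ a) (haa : a + 2 * g ≤ a') (ha' : a' < x + L)
    (hp : p + cn A a + 1 = n + a) (hp' : p' + cn A a' + 1 = n + a') : p + g ≤ p' := by
  obtain ⟨s1, s2, s3, s4, s5, s8⟩ := sz_facts hS hxX
  have s6 := hS.hw
  have h1 := hT.den.sp (y := a) (z := a') (j := 2) (by omega) haa (by omega)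
  omega

theorem pset_sp (hS : Sz n g k L Xm) (hT : Ty A n g k Xm) (hx : n ≤ x) (hxX : x + L ≤ Xm)
    (hTL : 4 * g * T ≤ L) {p p' : ℕ}
    (hp : p ∈ Pset n g x T L (trS A (n ^ 2) (Icc (x + n / 2) (x + n + L))))
    (hp' : p' ∈ Pset n g x T L (trS A (n ^ 2) (Icc (x + n / 2) (x + n + L)))) (hpp : p < p') :
    p + g ≤ p' := by
  obtain ⟨s1, s2, s3, s4, s5, s8⟩ := sz_facts hS hxX
  have s6 := hS.hw
  have s7 := hS.g1
  unfold Pset at hp hp'
  rw [mem_filter, mem_Icc] at hp hp'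
  obtain ⟨-, t, ht, a, ha, h1, h2, h3, h4⟩ := hp
  obtain ⟨-, t', ht', a', ha', h1', h2', h3', h4'⟩ := hp'
  have cell : ∀ s < T, 4 * g * s + 4 * g ≤ L := by
    intro s hs
    have h5 : 4 * g * (s + 1) ≤ 4 * g * T := Nat.mul_le_mul_left _ hs
    have e : 4 * g * (s + 1) = 4 * g * s + 4 * g := by ring
    omega
  have c1 := cell t ht
  have c2 := cell t' ht'
  rw [cn_tr_lo (fun m hm => by rw [mem_Icc] at hm; omega) (by omega)] at h4 h4'
  rcases lt_trichotomy t t' with h | h | h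
  · have h5 : 4 * g * (t + 1) ≤ 4 * g * t' := Nat.mul_le_mul_left _ h
    have e : 4 * g * (t + 1) = 4 * g * t + 4 * g := by ring
    exact p_sp hS hT hx hxX (a := a) (a' := a') (by omega) (by omega) (by omega) h4 h4'
  · subst h
    have h5 := h3 a' ha' h1'
    have h6 := h3' a ha h1
    have h7 : a = a' := by omega
    subst h7
    omega
  · have h5 : 4 * g * (t' + 1) ≤ 4 * g * t := Nat.mul_le_mul_left _ h
    have e : 4 * g * (t' + 1) = 4 * g * t' + 4 * g := by ring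
    have h8 := p_sp hS hT hx hxX (a := a') (a' := a) (by omega) (by omega) (by omega) h4' h4
    omega

/-- many numbers `p` -/
theorem pset_card (hS : Sz n g k L Xm) (hT : Ty A n g k Xm) (hx : n ≤ x) (hxX : x + L ≤ Xm)
    (hTL : 4 * g * T ≤ L) {h0 : ℕ} {S : Finset ℕ} (hc : h0 ≤ S.card)
    (hSc : ∀ t ∈ S, t < T ∧ ∃ m, m ∈ A ∧ x + 4 * g * t ≤ m ∧ m < x + 4 * g * t + g) :
    h0 ≤ (Pset n g x T L (trS A (n ^ 2) (Icc (x + n / 2) (x + n + L)))).card := by
  classical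
  obtain ⟨s1, s2, s3, s4, s5, s8⟩ := sz_facts hS hxX
  have s6 := hS.hw
  have s7 := hS.g1
  have cell : ∀ s < T, 4 * g * s + 4 * g ≤ L := by
    intro s hs
    have h5 : 4 * g * (s + 1) ≤ 4 * g * T := Nat.mul_le_mul_left _ hs
    have e : 4 * g * (s + 1) = 4 * g * s + 4 * g := by ring
    omega
  have hex : ∀ t ∈ S, ∃ a, t < T ∧ a ∈ A ∧ x + 4 * g * t ≤ a ∧ a < x + 4 * g * t + g ∧
      (∀ a' ∈ A, x + 4 * g * t ≤ a' → a ≤ a') := by
    intro t ht
    obtain ⟨ht, q, hqA, hq1, hq2⟩ := hSc t ht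
    obtain ⟨a, h1, h2, h3, h4⟩ := exists_first (A := A) ⟨q, hqA, hq1, hq2⟩
    exact ⟨a, ht, h1, h2, h3, h4⟩
  choose! a hT' haA ha1 ha2 ha3 using hex
  have hpe : ∀ t ∈ S, ∃ p, p + cn A (a t) + 1 = n + a t := by
    intro t ht
    have h1 := cn_le (A := A) (a t)
    have h2 := ha1 t ht
    have c1 := cell t (hT' t ht)
    exact ⟨n + a t - cn A (a t) - 1, by omega⟩
  choose! p hp using hpe
  have hsp : ∀ t ∈ S, ∀ t' ∈ S, t < t' → p t < p t' := by
    intro t ht t' ht' h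
    have c2 := cell t' (hT' t' ht')
    have h5 : 4 * g * (t + 1) ≤ 4 * g * t' := Nat.mul_le_mul_left _ h
    have e : 4 * g * (t + 1) = 4 * g * t + 4 * g := by ring
    have h6 := ha1 t ht
    have h7 := ha2 t ht
    have h8 := ha1 t' ht'
    have h9 := ha2 t' ht'
    have h10 := p_sp hS hT hx hxX (a := a t) (a' := a t') (by omega) (by omega) (by omega)
      (hp t ht) (hp t' ht')
    omega
  have hinj : Set.InjOn p (S : Set ℕ) := by
    intro t ht t' ht' hh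
    rw [mem_coe] at ht ht'
    rcases lt_trichotomy t t' with h | h | h
    · have := hsp t ht t' ht' h
      omega
    · exact h
    · have := hsp t' ht' t ht h
      omega
  have hsub : S.image p ⊆ Pset n g x T L (trS A (n ^ 2) (Icc (x + n / 2) (x + n + L))) := by
    intro y hy
    rw [mem_image] at hy
    obtain ⟨t, ht, rfl⟩ := hy
    have c1 := cell t (hT' t ht)
    have h6 := ha1 t ht
    have h7 := ha2 t ht
    have h8 := hp t ht
    have h9 := rank_half hT hxX (a := a t) (by omega)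
    unfold Pset
    rw [mem_filter, mem_Icc]
    refine ⟨⟨by omega, by omega⟩, t, hT' t ht, a t, ?_, h6, h7, ?_, ?_⟩
    · rw [mem_trS, mem_Icc]
      exact ⟨by omega, by omega, haA t ht⟩
    · intro a' ha' h10
      rw [mem_trS] at ha'
      exact ha3 t ht a' ha'.2.2 h10
    · rw [cn_tr_lo (fun m hm => by rw [mem_Icc] at hm; omega) (by omega)]
      exact h8
  calc h0 ≤ S.card := hc
    _ = (S.image p).card := (card_image_of_injOn hinj).symm
    _ ≤ _ := card_le_card hsub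

/-- what the elements of `Pset` give -/
theorem pset_mem (hS : Sz n g k L Xm) (hx : n ≤ x) (hxX : x + L ≤ Xm)
    (hTL : 4 * g * T ≤ L) {p : ℕ}
    (hp : p ∈ Pset n g x T L (trS A (n ^ 2) (Icc (x + n / 2) (x + n + L)))) :
    x + n / 2 ≤ p ∧ p ≤ x + n + L ∧ ∃ a ∈ A, x ≤ a ∧ a < x + L ∧ p + cn A a + 1 = n + a := by
  obtain ⟨s1, s2, s3, s4, s5, s8⟩ := sz_facts hS hxX
  have s6 := hS.hw
  have s7 := hS.g1
  unfold Pset at hp
  rw [mem_filter, mem_Icc] at hp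
  obtain ⟨⟨h5, h6⟩, t, ht, a, ha, h1, h2, h3, h4⟩ := hp
  have c1 : 4 * g * t + 4 * g ≤ L := by
    have h5 : 4 * g * (t + 1) ≤ 4 * g * T := Nat.mul_le_mul_left _ ht
    have e : 4 * g * (t + 1) = 4 * g * t + 4 * g := by ring
    omega
  rw [cn_tr_lo (fun m hm => by rw [mem_Icc] at hm; omega) (by omega)] at h4
  rw [mem_trS] at ha
  exact ⟨h5, h6, a, ha.2.2, by omega, by omega, h4⟩

end block

end Pool.Agent.CP70
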