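import Pool.Agent.CP70.DetX

/-!
# CP70/DetY: the positions `q` for the elements `a` of a block
-/

set_option autoImplicit false

open Finset

namespace Pool.Agent.CP70

open Pool.Agent.CP25 Pool.Agent.CP69

variable {A : Set ℕ}

section block

variable {n g k L Xm x T : ℕ}

theorem pk_le (hS : Sz n g k L Xm) (hxX : x + L ≤ Xm) {p : ℕ}
    (hp : p ≤ x + n + L) : 2 * (p * k) + n * k ≤ n ^ 2 := by
  obtain ⟨s1, s2, s3, s4, s5, s8⟩ := sz_facts hS hxX
  have s6 := hS.hw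
  have h1 := Nat.mul_le_mul_right k hp
  have e : (x + n + L) * k = x * k + n * k + L * k := by ring
  omega

theorem exists_b (hS : Sz n g k L Xm) (hT : Ty A n g k Xm) (hx : n ≤ x) (hxX : x + L ≤ Xm) {p : ℕ}
    (hp1 : x + n / 2 ≤ p) (hp : p ≤ x + n + L) :
    ∃ b, b ∈ A ∧ b < 8 + p * k ∧ cn A b + 1 = p ∧ 4 * p ≤ b := by
  obtain ⟨s1, s2, s3, s4, s5, s8⟩ := sz_facts hS hxX
  have s6 := hS.hw
  have h1 := pk_le hS hxX hp
  have h2 := hT.win.el (x := 8) le_rfl p (by omega)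
  obtain ⟨b, hb, h3, h4⟩ := exists_el (A := A) (x := 8 + p * k) (p := p) (by omega) (by omega)
  refine ⟨b, hb, h3, h4, ?_⟩
  by_contra hcon
  have h5 := cn_lt (x := b) (y := 4 * p) hb le_rfl (by omega)
  have h6 : p ≤ p * k := by
    have := hS.k8
    exact Nat.le_mul_of_pos_right _ (by omega)
  have h7 := hT.uu p (by omega) (by omega)
  omega

/-- the facts on the numbers `p` of a set `H` and the elements `b` with the number `p` -/
structure HH (A : Set ℕ) (n g k L x : ℕ) (H : Finset ℕ) (b : ℕ → ℕ) (P0 : ℕ) : Prop where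
  mem0 : P0 ∈ H
  pA : ∀ p ∈ H, p ∈ A
  plo : ∀ p ∈ H, x + n / 2 ≤ p
  phi : ∀ p ∈ H, p ≤ x + n + L
  pa : ∀ p ∈ H, ∃ a ∈ A, x ≤ a ∧ a < x + L ∧ p + cn A a + 1 = n + a
  bA : ∀ p ∈ H, b p ∈ A
  bhi : ∀ p ∈ H, b p < 8 + p * k
  bel : ∀ p ∈ H, cn A (b p) + 1 = p
  blo : ∀ p ∈ H, 4 * p ≤ b p
  p0 : ∀ p ∈ H, P0 ≤ p
  pw : ∀ p ∈ H, p ≤ P0 + L
  b0 : ∀ p ∈ H, b P0 + p ≤ b p + P0
  bw : ∀ p ∈ H, b p ≤ b P0 + (L * k + k)
  qmono : ∀ p ∈ H, ∀ p' ∈ H, p < p' → b p + p' + 1 ≤ b p' + p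

theorem exists_HH (hS : Sz n g k L Xm) (hT : Ty A n g k Xm) (hx : n ≤ x) (hxX : x + L ≤ Xm)
    (hTL : 4 * g * T ≤ L) {H : Finset ℕ} (hH : H.Nonempty) (hHA : ∀ p ∈ H, p ∈ A)
    (hHP : ∀ p ∈ H, p ∈ Pset n g x T L (trS A (n ^ 2) (Icc (x + n / 2) (x + n + L)))) :
    ∃ b P0, HH A n g k L x H b P0 := by
  obtain ⟨s1, s2, s3, s4, s5, s8⟩ := sz_facts hS hxX
  have s6 := hS.hw
  have s7 := hS.g1
  have hm : ∀ p ∈ H, _ := fun p hp => pset_mem hS hx hxX hTL (hHP p hp)
  have hbex : ∀ p ∈ H, ∃ b, b ∈ A ∧ b < 8 + p * k ∧ cn A b + 1 = p ∧ 4 * p ≤ b := fun p hp =>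
    exists_b hS hT hx hxX (hm p hp).1 (hm p hp).2.1
  choose! b hbA hbhi hbel hblo using hbex
  obtain ⟨P0, hP0, hmin⟩ := exists_min_image H id hH
  simp only [id] at hmin
  have pk : ∀ p ∈ H, 2 * (p * k) + n * k ≤ n ^ 2 := fun p hp => pk_le hS hxX (hm p hp).2.1
  have pw : ∀ p ∈ H, p ≤ P0 + L := by
    intro p hp
    obtain ⟨h1, h2, a, ha, h3, h4, h5⟩ := hm p hp
    obtain ⟨h1', h2', a', ha', h3', h4', h5'⟩ := hm P0 hP0
    rcases le_total a a' with h | h
    · have h6 := cn_le_add (A := A) h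
      omega
    · have h6 := cn_mono (A := A) h
      omega
  have bmono : ∀ p ∈ H, ∀ p' ∈ H, p ≤ p' → b p ≤ b p' := by
    intro p hp p' hp' h
    by_contra hcon
    have h4 := cn_lt (x := b p') (y := b p) (hbA p' hp') le_rfl (by omega)
    have h5 := hbel p hp
    have h6 := hbel p' hp'
    omega
  have bge : ∀ p ∈ H, ∀ p' ∈ H, p ≤ p' → b p + p' ≤ b p' + p := by
    intro p hp p' hp' h
    have h4 := cn_le_add (A := A) (bmono p hp p' hp' h)
    have h5 := hbel p hp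
    have h6 := hbel p' hp'
    omega
  refine ⟨b, P0, hP0, hHA, fun p hp => (hm p hp).1, fun p hp => (hm p hp).2.1,
    fun p hp => (hm p hp).2.2, hbA, hbhi, hbel, hblo, hmin, pw,
    fun p hp => bge P0 hP0 p hp (hmin p hp), ?_, ?_⟩
  · intro p hp
    by_contra hcon
    have e : (L + 1) * k = L * k + k := by ring
    have h8 := pk p hp
    have h9 := hbhi p hp
    have h10 := hblo P0 hP0
    have h11 := (hm P0 hP0).1
    have h4 := hT.win.el (x := b P0) (by omega) (L + 1) (by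
      rw [e]
      omega)
    rw [e] at h4
    have h5 := cn_mono (A := A) (x := b P0 + (L * k + k)) (y := b p) (by omega)
    have h6 := hbel p hp
    have h7 := hbel P0 hP0
    have h12 := pw p hp
    omega
  · intro p hp p' hp' h
    have h1 := pset_sp hS hT hx hxX hTL (hHP p hp) (hHP p' hp') h
    have h2 := bge p hp p' hp' h.le
    have h3 := hbel p hp
    have h4 := hbel p' hp'
    have h5 := hblo p hp
    have h6 := (hm p hp).1
    have h8 := pk p' hp'
    have h9 := hbhi p' hp'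
    have h7 := hT.den.sp (y := b p) (z := b p') (j := 1) (by omega) (by omega) (by omega)
    omega

theorem card_of_mono {H : Finset ℕ} {q : ℕ → ℕ} (h : ∀ p ∈ H, ∀ p' ∈ H, p < p' → q p < q p')
    (S : Finset ℕ) (hS : ∀ p ∈ H, q p ∈ S) : H.card ≤ S.card := by
  classical
  have hinj : Set.InjOn q (H : Set ℕ) := by
    intro t ht t' ht' hh
    rw [mem_coe] at ht ht'
    rcases lt_trichotomy t t' with h1 | h1 | h1
    · have := h t ht t' ht' h1
      omega
    · exact h1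
    · have := h t' ht' t ht h1
      omega
  have hsub : H.image q ⊆ S := by
    intro y hy
    rw [mem_image] at hy
    obtain ⟨t, ht, rfl⟩ := hy
    exact hS t ht
  calc H.card = (H.image q).card := (card_image_of_injOn hinj).symm
    _ ≤ S.card := card_le_card hsub

theorem q1_card (hS : Sz n g k L Xm) (hT : Ty A n g k Xm) (hx : n ≤ x) (hxX : x + L ≤ Xm)
    {H : Finset ℕ} {b : ℕ → ℕ} {P0 : ℕ} (h : HH A n g k L x H b P0) :
    ∃ v, x + n + L < v ∧ v + (L * k + k + L) ≤ n ^ 2 ∧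
      H.card ≤ (Q1x n x L (L * k + k + L) v (cV A (Icc v (v + (L * k + k + L))))
        (trS A (n ^ 2) (Icc v (v + (L * k + k + L))))).card := by
  obtain ⟨s1, s2, s3, s4, s5, s8⟩ := sz_facts hS hxX
  have s6 := hS.hw
  have s7 := hS.g1
  have g1 := h.blo P0 h.mem0
  have g2 := h.plo P0 h.mem0
  have g3 := h.phi P0 h.mem0
  have g4 := h.bhi P0 h.mem0
  have g5 := pk_le hS hxX g3
  obtain ⟨v, hv⟩ : ∃ v, v + P0 = b P0 + 1 := ⟨b P0 + 1 - P0, by omega⟩
  refine ⟨v, by omega, by omega, ?_⟩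
  refine card_of_mono (q := fun p => b p + 1 - p) ?_ _ ?_
  · intro p hp p' hp' hh
    have h1 := h.qmono p hp p' hp' hh
    have h2 := h.blo p hp
    omega
  · intro p hp
    have h1 := h.b0 p hp
    have h2 := h.bw p hp
    have h3 := h.p0 p hp
    have h4 := h.phi p hp
    have h5 := h.blo p hp
    have h6 := h.plo p hp
    have h7 := h.bhi p hp
    have h8 := pk_le hS hxX h4
    have h9 := h.bel p hp
    obtain ⟨a, ha, h10, h11, h12⟩ := h.pa p hp
    have h13 := rank_half hT hxX h11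
    unfold Q1x
    rw [mem_filter, mem_Icc]
    refine ⟨⟨by omega, by omega⟩, a, ?_, p, ?_, b p, ?_, h10, h11, ?_, by omega, ?_, ?_, by omega⟩
    · rw [mem_trS, mem_Icc]
      exact ⟨by omega, by omega, ha⟩
    · rw [mem_trS, mem_Icc]
      exact ⟨by omega, by omega, h.pA p hp⟩
    · rw [mem_trS, mem_Icc]
      exact ⟨by omega, by omega, h.bA p hp⟩
    · rw [cn_tr_lo (fun m hm => by rw [mem_Icc] at hm; omega) (by omega)]
      omega
    · rw [cn_tr_lo (fun m hm => by rw [mem_Icc] at hm; omega) (by omega)]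
      exact h12
    · rw [cn_tr_hi (fun m hm => by rw [mem_Icc] at hm; omega) (by omega)]
      exact h9

theorem q2_card (hS : Sz n g k L Xm) (hT : Ty A n g k Xm) (hx : n ≤ x) (hxX : x + L ≤ Xm)
    {H : Finset ℕ} {b : ℕ → ℕ} {P0 : ℕ} (h : HH A n g k L x H b P0) :
    ∃ v, x + n + L < v ∧ v + (L * k + k + L) ≤ n ^ 2 ∧
      H.card ≤ (Q2x n x L (L * k + k + L) v
        (trS A (n ^ 2) (Icc v (v + (L * k + k + L))))).card := by
  obtain ⟨s1, s2, s3, s4, s5, s8⟩ := sz_facts hS hxX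
  have s6 := hS.hw
  have s7 := hS.g1
  have g1 := h.blo P0 h.mem0
  have g2 := h.plo P0 h.mem0
  have g3 := h.phi P0 h.mem0
  have g4 := h.bhi P0 h.mem0
  have g5 := pk_le hS hxX g3
  refine ⟨b P0 + P0 + 1, by omega, by omega, ?_⟩
  refine card_of_mono (q := fun p => b p + p + 1) ?_ _ ?_
  · intro p hp p' hp' hh
    have h1 := h.qmono p hp p' hp' hh
    omega
  · intro p hp
    have h1 := h.b0 p hp
    have h2 := h.bw p hp
    have h3 := h.p0 p hp
    have h4 := h.phi p hp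
    have h5 := h.blo p hp
    have h6 := h.plo p hp
    have h7 := h.bhi p hp
    have h8 := pk_le hS hxX h4
    have h9 := h.bel p hp
    have h14 := h.pw p hp
    obtain ⟨a, ha, h10, h11, h12⟩ := h.pa p hp
    have h13 := rank_half hT hxX h11
    unfold Q2x
    rw [mem_filter, mem_Icc]
    refine ⟨⟨by omega, by omega⟩, a, ?_, p, ?_, b p, ?_, h10, h11, ?_, by omega, ?_, ?_, rfl⟩
    · rw [mem_trS, mem_Icc]
      exact ⟨by omega, by omega, ha⟩
    · rw [mem_trS, mem_Icc]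
      exact ⟨by omega, by omega, h.pA p hp⟩
    · rw [mem_trS, mem_Icc]
      exact ⟨by omega, by omega, h.bA p hp⟩
    · rw [cn_tr_lo (fun m hm => by rw [mem_Icc] at hm; omega) (by omega)]
      omega
    · rw [cn_tr_lo (fun m hm => by rw [mem_Icc] at hm; omega) (by omega)]
      exact h12
    · rw [cn_tr_lo (fun m hm => by rw [mem_Icc] at hm; omega) (by omega)]
      exact h9

theorem conc1x {w v q : ℕ} (hv : x + L ≤ v) (hxn : x + L ≤ n ^ 2)
    (hq : q ∈ Q1x n x L w v (cV A (Icc v (v + w))) (trS A (n ^ 2) (Icc v (v + w)))) :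
    ∃ l, 0 < l ∧ l < n ∧ x ≤ el A (n - l) ∧ el A (n - l) < x + L ∧ l + el A (n - l) ∈ A ∧
      (q : ℤ) = el A (l + el A (n - l)) - ((l + el A (n - l) : ℕ) : ℤ) + 1 := by
  unfold Q1x at hq
  rw [mem_filter, mem_Icc] at hq
  obtain ⟨-, a, ha, p, hp, b, hb, h0, h1, h1', h2, h3, h4, h5⟩ := hq
  rw [mem_trS] at ha hp hb
  rw [cn_tr_lo (fun m hm => by rw [mem_Icc] at hm; omega) (by omega)] at h3 h1'
  rw [cn_tr_hi (fun m hm => by rw [mem_Icc] at hm; omega) (by omega)] at h4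
  have h7 : n - (n - (cn A a + 1)) = cn A a + 1 := by omega
  have h8 : el A (n - (n - (cn A a + 1))) = a := el_cn ha.2.2 h7.symm
  have h9 : n - (cn A a + 1) + el A (n - (n - (cn A a + 1))) = p := by
    rw [h8]
    omega
  refine ⟨n - (cn A a + 1), by omega, by omega, by rw [h8]; exact h0, by rw [h8]; exact h1, ?_, ?_⟩
  · rw [h9]
    exact hp.2.2
  · rw [h9, el_cn hb.2.2 h4]
    omega

theorem conc2x {w v q : ℕ} (hv : x + L ≤ v) (hxn : x + L ≤ n ^ 2)
    (hq : q ∈ Q2x n x L w v (trS A (n ^ 2) (Icc v (v + w)))) :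
    ∃ l, 0 < l ∧ l < n ∧ x ≤ el A (n - l) ∧ el A (n - l) < x + L ∧ l + el A (n - l) ∈ A ∧
      q = el A (l + el A (n - l)) + (l + el A (n - l)) + 1 := by
  unfold Q2x at hq
  rw [mem_filter, mem_Icc] at hq
  obtain ⟨-, a, ha, p, hp, b, hb, h0, h1, h1', h2, h3, h4, h5⟩ := hq
  rw [mem_trS] at ha hp hb
  rw [cn_tr_lo (fun m hm => by rw [mem_Icc] at hm; omega) (by omega)] at h3 h1'
  rw [cn_tr_lo (fun m hm => by rw [mem_Icc] at hm; omega) (by omega)] at h4
  have h7 : n - (n - (cn A a + 1)) = cn A a + 1 := by omega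
  have h8 : el A (n - (n - (cn A a + 1))) = a := el_cn ha.2.2 h7.symm
  have h9 : n - (cn A a + 1) + el A (n - (n - (cn A a + 1))) = p := by
    rw [h8]
    omega
  refine ⟨n - (cn A a + 1), by omega, by omega, by rw [h8]; exact h0, by rw [h8]; exact h1, ?_, ?_⟩
  · rw [h9]
    exact hp.2.2
  · rw [h9, el_cn hb.2.2 h4]
    exact h5

end block

end Pool.Agent.CP70
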