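import Pool.Agent.CP70.DetX

/-!
# CP70: the parameters
-/

set_option autoImplicit false

namespace Pool.Agent.CP70

open Finset Filter Topology

noncomputable def gg (n : ℕ) : ℕ := ⌊6 * Real.log n⌋₊ + 1

noncomputable def kk (n : ℕ) : ℕ := ⌊24 * Real.log n ^ 2⌋₊

def hh (n : ℕ) : ℕ := Nat.sqrt n

noncomputable def LL (n : ℕ) : ℕ := 4 * gg n * (8 * (8 * (8 * hh n * gg n) * gg n))

noncomputable def XX (n : ℕ) : ℕ := ⌊(n : ℝ) * Real.log n / 64⌋₊

noncomputable def JJ (n : ℕ) : ℕ := (XX n - n) / LL n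

theorem polylog : ∀ᶠ n : ℕ in atTop, (10 : ℝ) ^ 10 * Real.log n ^ 6 ≤ Real.sqrt n := by
  have h1 : (fun x : ℝ => Real.log x ^ (6 : ℝ)) =o[atTop] fun x : ℝ => x ^ (1 / 2 : ℝ) :=
    isLittleO_log_rpow_rpow_atTop 6 (by norm_num)
  have h2 := (h1.bound (show (0 : ℝ) < 1 / 10 ^ 10 by norm_num))
  have h3 := tendsto_natCast_atTop_atTop.eventually h2
  filter_upwards [h3, eventually_ge_atTop 1] with n h5 hn
  have h7 : 0 ≤ Real.log n := Real.log_natCast_nonneg n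
  rw [Real.norm_of_nonneg (by positivity), Real.norm_of_nonneg (by positivity)] at h5
  have h8 : Real.log n ^ (6 : ℝ) = Real.log n ^ 6 := by
    rw [show (6 : ℝ) = ((6 : ℕ) : ℝ) by norm_num, Real.rpow_natCast]
  rw [h8, ← Real.sqrt_eq_rpow] at h5
  linarith

/-- The facts used below. -/
structure Fa (n : ℕ) (l s : ℝ) : Prop where
  hl : Real.log n = l
  hs : Real.sqrt n = s
  l400 : 400 ≤ l
  pl : 10 ^ 10 * l ^ 6 ≤ s
  sq : s ^ 2 = n
  s1 : 1 ≤ s

theorem facts : ∀ᶠ n : ℕ in atTop, ∃ l s : ℝ, Fa n l s := by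
  have hlog : Tendsto (fun n : ℕ => Real.log n) atTop atTop :=
    Real.tendsto_log_atTop.comp tendsto_natCast_atTop_atTop
  filter_upwards [polylog, hlog.eventually_ge_atTop 400, eventually_ge_atTop 1] with n h1 h2 h3
  refine ⟨Real.log n, Real.sqrt n, rfl, rfl, h2, h1, Real.sq_sqrt (Nat.cast_nonneg n), ?_⟩
  rw [Real.one_le_sqrt]
  exact_mod_cast h3

theorem Fa.g_le {n : ℕ} {l s : ℝ} (F : Fa n l s) : (gg n : ℝ) ≤ 7 * l := by
  have h1 := F.l400
  unfold gg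
  rw [F.hl]
  push_cast
  have := Nat.floor_le (show 0 ≤ 6 * l by linarith)
  linarith

theorem Fa.g_ge {n : ℕ} {l s : ℝ} (F : Fa n l s) : 6 * l ≤ gg n := by
  unfold gg
  rw [F.hl]
  push_cast
  exact (Nat.lt_floor_add_one _).le

theorem Fa.k_le {n : ℕ} {l s : ℝ} (F : Fa n l s) : (kk n : ℝ) ≤ 24 * l ^ 2 := by
  unfold kk
  rw [F.hl]
  exact Nat.floor_le (by positivity)

theorem Fa.h_le {n : ℕ} {l s : ℝ} (F : Fa n l s) : (hh n : ℝ) ≤ s := by
  unfold hh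
  rw [← F.hs]
  exact Real.nat_sqrt_le_real_sqrt

theorem LL_eq (n : ℕ) : LL n = 2048 * hh n * gg n ^ 3 := by
  unfold LL
  ring

theorem Fa.g3_le {n : ℕ} {l s : ℝ} (F : Fa n l s) : (gg n : ℝ) ^ 3 ≤ 343 * l ^ 3 := by
  calc (gg n : ℝ) ^ 3 ≤ (7 * l) ^ 3 := pow_le_pow_left₀ (Nat.cast_nonneg _) F.g_le 3
    _ = 343 * l ^ 3 := by ring

theorem Fa.L_le {n : ℕ} {l s : ℝ} (F : Fa n l s) : (LL n : ℝ) ≤ 10 ^ 6 * (l ^ 3 * s) := by
  have h1 := F.l400
  have h2 := F.s1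
  rw [LL_eq]
  push_cast
  calc 2048 * (hh n : ℝ) * (gg n : ℝ) ^ 3 ≤ 2048 * s * (343 * l ^ 3) := by
        refine mul_le_mul ?_ F.g3_le (by positivity) (by positivity)
        linarith [F.h_le]
    _ = 702464 * (l ^ 3 * s) := by ring
    _ ≤ 10 ^ 6 * (l ^ 3 * s) := by
        refine mul_le_mul_of_nonneg_right (by norm_num) (by positivity)

theorem Fa.X_le {n : ℕ} {l s : ℝ} (F : Fa n l s) : (XX n : ℝ) ≤ n * l / 64 := by
  have h1 := F.l400
  unfold XX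
  rw [F.hl]
  exact Nat.floor_le (by positivity)

theorem Fa.X_ge {n : ℕ} {l s : ℝ} (F : Fa n l s) : (n : ℝ) * l / 64 ≤ XX n + 1 := by
  unfold XX
  rw [F.hl]
  exact (Nat.lt_floor_add_one _).le

theorem Fa.h1 {n : ℕ} {l s : ℝ} (F : Fa n l s) : 1 ≤ hh n := by
  unfold hh
  rw [Nat.le_sqrt]
  have h1 : (1 : ℝ) ≤ n := by
    rw [← F.sq]
    nlinarith [F.s1]
  have h2 : 1 ≤ n := by exact_mod_cast h1
  omega

theorem Fa.sz {n : ℕ} {l s : ℝ} (F : Fa n l s) : Sz n (gg n) (kk n) (LL n) (XX n) := by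
  have h1 := F.l400
  have h2 := F.s1
  have hpl := F.pl
  have hl2 : 1 ≤ l ^ 2 := by nlinarith
  have hl5 : l ^ 5 ≤ l ^ 6 := pow_le_pow_right₀ (by linarith) (by norm_num)
  have hl3 : l ^ 3 ≤ l ^ 6 := pow_le_pow_right₀ (by linarith) (by norm_num)
  have hl35 : l ^ 3 ≤ l ^ 5 := pow_le_pow_right₀ (by linarith) (by norm_num)
  have hl25 : l ^ 2 ≤ l ^ 5 := pow_le_pow_right₀ (by linarith) (by norm_num)
  have hl23 : l ^ 2 ≤ l ^ 3 := pow_le_pow_right₀ (by linarith) (by norm_num)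
  have hl5p : 0 < l ^ 5 := by positivity
  have hn1 : (1 : ℝ) ≤ n := by
    rw [← F.sq]
    nlinarith [F.s1]
  have hg1 : 1 ≤ gg n := by
    unfold gg
    omega
  refine ⟨hg1, ?_, ?_, ?_, ?_⟩
  · rw [LL_eq]
    have h3 := F.h1
    have h4 : gg n ≤ gg n ^ 3 := Nat.le_self_pow (by norm_num) _
    have h5 : 2048 * gg n ^ 3 ≤ 2048 * hh n * gg n ^ 3 := Nat.mul_le_mul_right _ (by omega)
    omega
  · unfold kk
    rw [F.hl]
    refine Nat.le_floor ?_
    push_cast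
    nlinarith
  · have hL := F.L_le
    have hk := F.k_le
    have e1 : (LL n : ℝ) * kk n ≤ 10 ^ 6 * (l ^ 3 * s) * (24 * l ^ 2) :=
      mul_le_mul hL hk (Nat.cast_nonneg _) (by positivity)
    have e2 : 10 ^ 6 * (l ^ 3 * s) * (24 * l ^ 2) = 24 * 10 ^ 6 * (l ^ 5 * s) := by ring
    have e3 : l ^ 3 * s ≤ l ^ 5 * s := mul_le_mul_of_nonneg_right hl35 (by linarith)
    have e4 : l ^ 2 ≤ l ^ 5 * s := by nlinarith
    have e5 : 10 ^ 10 * (l ^ 5 * s) ≤ n := by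
      rw [← F.sq]
      have e6 : 10 ^ 10 * l ^ 5 ≤ s := by linarith
      nlinarith
    have e7 : (16 : ℝ) * (LL n * kk n + kk n + LL n) ≤ n := by
      linarith
    exact_mod_cast e7
  · have hX := F.X_le
    have hk := F.k_le
    have e1 : ((XX n : ℝ) + 2 * n) * kk n ≤ (n * l / 64 + 2 * n) * (24 * l ^ 2) :=
      mul_le_mul (by linarith) hk (Nat.cast_nonneg _) (by positivity)
    have e2 : (n * l / 64 + 2 * n) * (24 * l ^ 2) = n * (24 / 64 * l ^ 3 + 48 * l ^ 2) := by ring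
    have e3 : (24 / 64 * l ^ 3 + 48 * l ^ 2) ≤ 49 * l ^ 3 := by linarith
    have hl3p : 0 < l ^ 3 := by positivity
    have e4 : 2 * (49 * l ^ 3) ≤ n := by
      rw [← F.sq]
      have e6 : 10 ^ 10 * l ^ 3 ≤ s := by linarith
      nlinarith
    have e5 : n * (24 / 64 * l ^ 3 + 48 * l ^ 2) ≤ n * (49 * l ^ 3) :=
      mul_le_mul_of_nonneg_left e3 (by linarith)
    have e6 : (n : ℝ) * (2 * (49 * l ^ 3)) ≤ n * n := mul_le_mul_of_nonneg_left e4 (by linarith)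
    have e7 : (2 : ℝ) * ((XX n + 2 * n) * kk n) ≤ (n : ℝ) ^ 2 := by
      rw [e2] at e1
      nlinarith
    exact_mod_cast e7

/-- (a) -/
theorem sz : ∀ᶠ n : ℕ in atTop, Sz n (gg n) (kk n) (LL n) (XX n) := by
  filter_upwards [facts] with n ⟨l, s, F⟩
  exact F.sz

/-- (b) -/
theorem gexp : ∀ᶠ n : ℕ in atTop, (1 - 1 / (3 * Real.log n)) ^ gg n ≤ Real.exp (-2) := by
  filter_upwards [facts] with n ⟨l, s, F⟩
  have h1 := F.l400
  have h2 := F.g_ge
  rw [F.hl]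
  have h4 : 1 - 1 / (3 * l) ≤ Real.exp (-(1 / (3 * l))) := by
    have := Real.add_one_le_exp (-(1 / (3 * l)))
    linarith
  have h5 : 0 ≤ 1 - 1 / (3 * l) := by
    have h6 : 1 / (3 * l) ≤ 1 / 1 := one_div_le_one_div_of_le (by norm_num) (by linarith)
    linarith
  calc (1 - 1 / (3 * l)) ^ gg n ≤ Real.exp (-(1 / (3 * l))) ^ gg n := pow_le_pow_left₀ h5 h4 _
    _ = Real.exp (gg n * (-(1 / (3 * l)))) := by rw [Real.exp_nat_mul]
    _ ≤ Real.exp (-2) := by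
        rw [Real.exp_le_exp]
        have h7 : 6 * l * (1 / (3 * l)) ≤ gg n * (1 / (3 * l)) :=
          mul_le_mul_of_nonneg_right h2 (by positivity)
        have h8 : 6 * l * (1 / (3 * l)) = 2 := by
          field_simp
          ring
        linarith

theorem Fa.nX {n : ℕ} {l s : ℝ} (F : Fa n l s) : n * l / 128 + n ≤ (XX n : ℝ) := by
  have h1 := F.l400
  have h2 := F.X_ge
  have hn1 : (1 : ℝ) ≤ n := by
    rw [← F.sq]
    nlinarith [F.s1]
  have h3 : (n : ℝ) * 400 ≤ n * l := mul_le_mul_of_nonneg_left h1 (by linarith)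
  linarith

/-- (d) -/
theorem JL : ∀ᶠ n : ℕ in atTop, JJ n * LL n + n ≤ XX n := by
  filter_upwards [facts] with n ⟨l, s, F⟩
  have h1 := F.nX
  have h2 := F.l400
  have h3 : (n : ℝ) ≤ XX n := by
    have : (0 : ℝ) ≤ n * l / 128 := by positivity
    linarith
  have h4 : n ≤ XX n := by exact_mod_cast h3
  have h5 := Nat.div_mul_le_self (XX n - n) (LL n)
  unfold JJ
  omega

/-- (c) -/
theorem Jh : ∀ᶠ n : ℕ in atTop,
    1 / (2 * 10 ^ 8) * ((n : ℝ) / Real.log n ^ 2) ≤ ((JJ n * hh n : ℕ) : ℝ) := by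
  filter_upwards [facts] with n ⟨l, s, F⟩
  have h1 := F.nX
  have h2 := F.l400
  have hs1 := F.s1
  have hhs := F.h_le
  have hpl := F.pl
  have hh1 := F.h1
  rw [F.hl]
  have hg1 : 1 ≤ gg n := by
    unfold gg
    omega
  have hLpos : 0 < LL n := by
    rw [LL_eq]
    positivity
  have hn1 : (1 : ℝ) ≤ n := by
    rw [← F.sq]
    nlinarith [F.s1]
  have h3 : XX n - n < (JJ n + 1) * LL n := by
    unfold JJ
    have := Nat.lt_div_mul_add (a := XX n - n) hLpos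
    calc XX n - n < (XX n - n) / LL n * LL n + LL n := this
      _ = ((XX n - n) / LL n + 1) * LL n := by ring
  have h3' : XX n < (JJ n + 1) * LL n + n := by omega
  have h4 : (XX n : ℝ) < (JJ n + 1) * LL n + n := by exact_mod_cast h3'
  have h5 : (n : ℝ) * l / 128 < (JJ n + 1) * LL n := by linarith
  rw [LL_eq] at h5
  push_cast at h5 ⊢
  have h6 : (JJ n + 1 : ℝ) * (2048 * hh n * (gg n : ℝ) ^ 3) ≤
      (JJ n + 1) * (2048 * hh n * (343 * l ^ 3)) := by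
    refine mul_le_mul_of_nonneg_left ?_ (by positivity)
    exact mul_le_mul_of_nonneg_left F.g3_le (by positivity)
  have h7 : (n : ℝ) * l / 128 < (JJ n + 1) * hh n * (702464 * l ^ 3) := by
    refine h5.trans_le (h6.trans_eq ?_)
    ring
  have hl0 : 0 < l := by linarith
  have h8 : (n : ℝ) / (89915392 * l ^ 2) ≤ (JJ n + 1) * hh n := by
    rw [div_le_iff₀ (by positivity)]
    have h9 : (n : ℝ) * l < (JJ n + 1) * hh n * (89915392 * l ^ 2) * l := by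
      calc (n : ℝ) * l = 128 * (n * l / 128) := by ring
        _ < 128 * ((JJ n + 1) * hh n * (702464 * l ^ 3)) :=
            mul_lt_mul_of_pos_left h7 (by norm_num)
        _ = (JJ n + 1) * hh n * (89915392 * l ^ 2) * l := by ring
    exact (lt_of_mul_lt_mul_right h9 hl0.le).le
  have h10 : s ≤ 1 / 10 ^ 9 * ((n : ℝ) / l ^ 2) := by
    have e1 : l ^ 2 ≤ l ^ 6 := pow_le_pow_right₀ (by linarith) (by norm_num)
    rw [← mul_div_assoc, le_div_iff₀ (by positivity)]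
    have e2 : 10 ^ 10 * l ^ 2 ≤ s := by linarith
    rw [← F.sq]
    have e3 : 0 ≤ l ^ 2 := by positivity
    nlinarith
  have h11 : (n : ℝ) / (89915392 * l ^ 2) = 1 / 89915392 * ((n : ℝ) / l ^ 2) := by
    rw [div_mul_eq_mul_div, one_mul, div_div, mul_comm]
  have h12 : ((JJ n : ℝ) + 1) * hh n = JJ n * hh n + hh n := by ring
  have h13 : 0 ≤ (n : ℝ) / l ^ 2 := by positivity
  rw [h11, h12] at h8
  have h14 : 1 / (2 * 10 ^ 8) * ((n : ℝ) / l ^ 2) + 1 / 10 ^ 9 * ((n : ℝ) / l ^ 2) ≤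
      1 / 89915392 * ((n : ℝ) / l ^ 2) := by
    rw [← add_mul]
    exact mul_le_mul_of_nonneg_right (by norm_num) h13
  linarith

theorem Fa.n7 {n : ℕ} {l s : ℝ} (F : Fa n l s) : Real.exp (-(7 * l)) = 1 / (n : ℝ) ^ 7 := by
  have hn1 : (1 : ℝ) ≤ n := by
    rw [← F.sq]
    nlinarith [F.s1]
  rw [Real.exp_neg, one_div]
  congr 1
  rw [show (7 : ℝ) * l = ((7 : ℕ) : ℝ) * l by norm_num, Real.exp_nat_mul, ← F.hl,
    Real.exp_log (by linarith)]

/-- (e) -/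
theorem k7 : ∀ᶠ n : ℕ in atTop, (1 - 1 / (3 * Real.log n)) ^ kk n ≤ 1 / (n : ℝ) ^ 7 := by
  filter_upwards [facts] with n ⟨l, s, F⟩
  have h1 := F.l400
  have h2 : 24 * l ^ 2 ≤ kk n + 1 := by
    unfold kk
    rw [F.hl]
    exact (Nat.lt_floor_add_one _).le
  rw [F.hl, ← F.n7]
  have h4 : 1 - 1 / (3 * l) ≤ Real.exp (-(1 / (3 * l))) := by
    have := Real.add_one_le_exp (-(1 / (3 * l)))
    linarith
  have h5 : 0 ≤ 1 - 1 / (3 * l) := by
    have h6 : 1 / (3 * l) ≤ 1 / 1 := one_div_le_one_div_of_le (by norm_num) (by linarith)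
    linarith
  calc (1 - 1 / (3 * l)) ^ kk n ≤ Real.exp (-(1 / (3 * l))) ^ kk n := pow_le_pow_left₀ h5 h4 _
    _ = Real.exp (kk n * (-(1 / (3 * l)))) := by rw [Real.exp_nat_mul]
    _ ≤ Real.exp (-(7 * l)) := by
        rw [Real.exp_le_exp]
        have h7 : (24 * l ^ 2 - 1) * (1 / (3 * l)) ≤ kk n * (1 / (3 * l)) :=
          mul_le_mul_of_nonneg_right (by linarith) (by positivity)
        have h8 : 24 * l ^ 2 * (1 / (3 * l)) = 8 * l := by
          field_simp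
          ring
        have h9 : 1 / (3 * l) ≤ 1 / 1 := one_div_le_one_div_of_le (by norm_num) (by linarith)
        nlinarith

/-- (f) -/
theorem e7 : ∀ᶠ n : ℕ in atTop, Real.exp (-((n : ℝ) / 4)) ≤ 1 / (n : ℝ) ^ 7 := by
  filter_upwards [facts] with n ⟨l, s, F⟩
  rw [← F.n7, Real.exp_le_exp]
  have h1 := F.l400
  have h2 := F.pl
  have h3 := F.s1
  have e1 : l ≤ l ^ 6 := le_self_pow₀ (by linarith) (by norm_num)
  have e2 := F.sq
  nlinarith

/-- (g) -/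
theorem g7 : ∀ᶠ n : ℕ in atTop,
    2 ^ gg n * (1 / Real.log n) ^ (gg n / 2) ≤ 1 / (n : ℝ) ^ 7 := by
  filter_upwards [facts] with n ⟨l, s, F⟩
  rw [← F.n7, F.hl]
  have h1 := F.l400
  have h2 := F.g_ge
  obtain ⟨m, hm⟩ : ∃ m, m = gg n / 2 := ⟨_, rfl⟩
  have hm1 : gg n ≤ 2 * m + 1 := by omega
  have hm2 : (gg n : ℝ) ≤ 2 * m + 1 := by exact_mod_cast hm1
  rw [← hm]
  have h3 : (2 : ℝ) ^ gg n ≤ 2 * 4 ^ m := by
    calc (2 : ℝ) ^ gg n ≤ 2 ^ (2 * m + 1) := pow_le_pow_right₀ (by norm_num) hm1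
      _ = 2 * 4 ^ m := by
        rw [pow_succ, pow_mul]
        norm_num
        ring
  have h4 : (1 / l) ^ m ≤ (1 / 400) ^ m :=
    pow_le_pow_left₀ (by positivity) (one_div_le_one_div_of_le (by norm_num) h1) m
  have h5 : (1 / 100 : ℝ) ≤ Real.exp (-4) := by
    have e1 : Real.exp (-4) = (Real.exp 4)⁻¹ := by rw [Real.exp_neg]
    have e2 : Real.exp 4 = Real.exp 1 ^ 4 := by
      rw [← Real.exp_nat_mul]
      norm_num
    have e3 : Real.exp 1 ^ 4 ≤ 3 ^ 4 := by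
      refine pow_le_pow_left₀ (Real.exp_pos 1).le ?_ 4
      have := Real.exp_one_lt_d9
      linarith
    rw [e1, one_div]
    refine inv_anti₀ (Real.exp_pos 4) ?_
    rw [e2]
    linarith
  have h6 : (1 / 100 : ℝ) ^ m ≤ Real.exp (-(4 * m)) := by
    calc (1 / 100 : ℝ) ^ m ≤ Real.exp (-4) ^ m := pow_le_pow_left₀ (by norm_num) h5 m
      _ = Real.exp (-(4 * m)) := by
        rw [← Real.exp_nat_mul]
        congr 1
        ring
  calc 2 ^ gg n * (1 / l) ^ m ≤ (2 * 4 ^ m) * (1 / 400) ^ m :=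
        mul_le_mul h3 h4 (by positivity) (by positivity)
    _ = 2 * (1 / 100 : ℝ) ^ m := by
        rw [mul_assoc, ← mul_pow]
        norm_num
    _ ≤ Real.exp 1 * Real.exp (-(4 * m)) := by
        refine mul_le_mul ?_ h6 (by positivity) (Real.exp_pos 1).le
        have := Real.exp_one_gt_d9
        linarith
    _ = Real.exp (1 - 4 * m) := by
        rw [← Real.exp_add]
        congr 1
    _ ≤ Real.exp (-(7 * l)) := by
        rw [Real.exp_le_exp]
        linarith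

/-- (h) -/
theorem h7 : ∀ᶠ n : ℕ in atTop, Real.exp (-(hh n : ℝ)) ≤ 1 / (n : ℝ) ^ 7 := by
  filter_upwards [facts] with n ⟨l, s, F⟩
  rw [← F.n7, Real.exp_le_exp]
  have h1 := F.l400
  have h2 := F.pl
  have h3 := F.s1
  have e1 : l ≤ l ^ 6 := le_self_pow₀ (by linarith) (by norm_num)
  have e2 : s ≤ hh n + 1 := by
    rw [← F.hs]
    unfold hh
    exact Real.real_sqrt_le_nat_sqrt_succ
  linarith

/-- (i) -/
theorem Jn : ∀ᶠ n : ℕ in atTop, JJ n ≤ n ^ 2 ∧ 1 ≤ hh n := by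
  filter_upwards [facts] with n ⟨l, s, F⟩
  refine ⟨?_, F.h1⟩
  have h1 := F.l400
  have h2 := F.pl
  have h3 := F.s1
  have e1 : l ≤ l ^ 6 := le_self_pow₀ (by linarith) (by norm_num)
  have hX := F.X_le
  have h4 : JJ n ≤ XX n := (Nat.div_le_self _ _).trans (Nat.sub_le _ _)
  have h5 : l / 64 ≤ n := by
    rw [← F.sq]
    nlinarith
  have h6 : (XX n : ℝ) ≤ (n : ℝ) ^ 2 := by
    have h7 : (n : ℝ) * (l / 64) ≤ n * n := mul_le_mul_of_nonneg_left h5 (Nat.cast_nonneg n)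
    have h8 : (n : ℝ) * l / 64 = n * (l / 64) := by ring
    nlinarith
  have h7 : XX n ≤ n ^ 2 := by exact_mod_cast h6
  exact h4.trans h7

end Pool.Agent.CP70
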