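import Pool.Agent.CP25.Num69

/-!
# CP70: numeric facts
-/

set_option autoImplicit false

namespace Pool.Agent.CP70

open Finset Filter Topology

/-- the expected number of elements below `4 y`, all `y ≥ n` -/
theorem N3 : ∀ᶠ n : ℕ in atTop, ∀ y : ℕ, n ≤ y → ∀ f : ℕ → ℝ, (∀ m, f m ≤ 1) →
    (∀ m : ℕ, 3 ≤ m → f m ≤ 1 / Real.log m) → ∑ m ∈ range (4 * y), f m ≤ y / 8 := by
  obtain ⟨N, hN⟩ := eventually_atTop.1 Pool.Agent.CP25.N1
  filter_upwards [eventually_ge_atTop N] with n hn y hy
  exact hN y (hn.trans hy)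

/-- the expected number of elements below `n log n / 64` -/
theorem N4 : ∀ᶠ n : ℕ in atTop, ∀ f : ℕ → ℝ, (∀ m, f m ≤ 1) →
    (∀ m : ℕ, 3 ≤ m → f m ≤ 1 / Real.log m) →
    ∑ m ∈ range ⌊(n : ℝ) * Real.log n / 64⌋₊, f m ≤ n / 16 := by
  filter_upwards [eventually_ge_atTop 10000] with n hn f hf1 hf2
  have hn' : (10000 : ℝ) ≤ n := by exact_mod_cast hn
  have hn1 : (1 : ℝ) < n := by linarith
  have hL : 0 < Real.log n := Real.log_pos hn1
  obtain ⟨r, hr⟩ : ∃ r, r = Nat.sqrt n := ⟨_, rfl⟩
  have hr1 : 100 ≤ r := by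
    rw [hr, Nat.le_sqrt]
    omega
  have hr2 : r * r ≤ n := by
    rw [hr]
    exact Nat.sqrt_le n
  have hr3 : n < (r + 1) * (r + 1) := by
    rw [hr]
    exact Nat.lt_succ_sqrt n
  have hr4 : 100 * r ≤ n := (Nat.mul_le_mul_right r hr1).trans hr2
  have hr5 : (r : ℝ) ≤ n / 100 := by
    have : (100 : ℝ) * r ≤ n := by exact_mod_cast hr4
    linarith
  obtain ⟨X, hX⟩ : ∃ X, X = ⌊(n : ℝ) * Real.log n / 64⌋₊ := ⟨_, rfl⟩
  have hX1 : (X : ℝ) ≤ n * Real.log n / 64 := by
    rw [hX]
    exact Nat.floor_le (by positivity)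
  rw [← hX]
  have h2 : ∀ m ∈ range X, f m ≤ (if m ∈ range (r + 1) then (1 : ℝ) else 0) + 2 / Real.log n := by
    intro m _
    split_ifs with h
    · have := hf1 m
      have : 0 < 2 / Real.log n := by positivity
      linarith
    · rw [mem_range, not_lt] at h
      have h4 : n < m * m := lt_of_lt_of_le hr3 (Nat.mul_le_mul h h)
      have h5 : (n : ℝ) ≤ (m : ℝ) ^ 2 := by
        have : (n : ℝ) < m * m := by exact_mod_cast h4
        nlinarith
      have h6 : Real.log n ≤ 2 * Real.log m := by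
        have h7 := Real.log_le_log (by linarith) h5
        rwa [Real.log_pow, Nat.cast_two] at h7
      have h8 : 1 / Real.log m ≤ 2 / Real.log n := by
        have h9 : 0 < Real.log m := by linarith
        rw [div_le_div_iff₀ h9 hL]
        linarith
      have := hf2 m (by omega)
      linarith
  have h3 : ∑ m ∈ range X, (if m ∈ range (r + 1) then (1 : ℝ) else 0) ≤ (n : ℝ) / 64 := by
    rw [← Finset.sum_filter, Finset.sum_const, nsmul_eq_mul, mul_one]
    have h4 : ((range X).filter (fun m => m ∈ range (r + 1))).card ≤ r + 1 := by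
      calc _ ≤ (range (r + 1)).card := by
            apply Finset.card_le_card
            intro m hm
            exact (Finset.mem_filter.1 hm).2
        _ = r + 1 := card_range _
    have h5 : (((range X).filter (fun m => m ∈ range (r + 1))).card : ℝ) ≤ ((r + 1 : ℕ) : ℝ) := by
      exact_mod_cast h4
    push_cast at h5
    linarith
  calc ∑ m ∈ range X, f m ≤ ∑ m ∈ range X,
        ((if m ∈ range (r + 1) then (1 : ℝ) else 0) + 2 / Real.log n) := sum_le_sum h2
    _ = ∑ m ∈ range X, (if m ∈ range (r + 1) then (1 : ℝ) else 0) + X * (2 / Real.log n) := by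
        rw [sum_add_distrib, sum_const, card_range, nsmul_eq_mul]
    _ ≤ n / 64 + (n * Real.log n / 64) * (2 / Real.log n) :=
        add_le_add h3 (mul_le_mul_of_nonneg_right hX1 (by positivity))
    _ = n / 64 + n / 32 := by
        congr 1
        field_simp
        ring
    _ ≤ n / 16 := by linarith

end Pool.Agent.CP70
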