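import Pool.Agent.CP70.Bnd2
import Pool.Agent.CP70.Num
import Pool.Agent.CP70.NumS25
import Pool.Agent.CP25.Main

/-!
# CP70/Main: the number of the indices is at least `c n / (log n)^2`
-/

set_option autoImplicit false

namespace Pool.Agent.CP70

open MeasureTheory ProbabilityTheory Finset Filter Topology Pool.Agent.CP69

variable {Ω : Type*} [mΩ : MeasurableSpace Ω] {μ : Measure Ω} {E : ℕ → Set Ω}

theorem main70 [IsProbabilityMeasure μ] (hE : ∀ m, MeasurableSet (E m)) (hi : iIndepSet E μ)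
    (hp : ∀ m, 3 ≤ m → μ.real (E m) = 1 / Real.log m) :
    ∀ᵐ ω ∂μ, ∀ᶠ n : ℕ in atTop,
      1 / (2 * 10 ^ 8) * ((n : ℝ) / Real.log n ^ 2) ≤ num1 (Pool.Agent.CP25.RS E ω) n ∧
      1 / (2 * 10 ^ 8) * ((n : ℝ) / Real.log n ^ 2) ≤ num2 (Pool.Agent.CP25.RS E ω) n := by
  obtain ⟨bad, hbad⟩ : ∃ bad : ℕ → Set Ω, bad = fun n =>
      Bad70 E n (gg n) (kk n) (LL n) (XX n) (8 * (8 * (8 * hh n * gg n) * gg n)) (hh n) (JJ n) :=
    ⟨_, rfl⟩
  have hb : ∀ᶠ n in atTop, μ.real (bad n) ≤ 20 * (1 / (n : ℝ) ^ 2) := by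
    filter_upwards [sz, JL, Jn, N3, N4, gexp, k7, e7, g7, h7, eventually_ge_atTop 1] with
      n h1 h2 h3 h4 h5 h6 h8 h9 h10 h11 h12
    have hn : (0 : ℝ) < n := by exact_mod_cast h12
    have hf1 : ∀ m, μ.real (E m) ≤ 1 := fun m => measureReal_le_one
    have hf2 : ∀ m, 3 ≤ m → μ.real (E m) ≤ 1 / Real.log m := fun m hm => (hp m hm).le
    rw [hbad]
    refine (bad70_le hE hi hp h1 rfl rfl (by omega) h3.1 (fun y hy => h4 y hy _ hf1 hf2)
      (h5 _ hf1 hf2) h6 h8 h9 h10 h11).trans (le_of_eq ?_)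
    field_simp
  have hs : Summable (fun n : ℕ => 20 * (1 / (n : ℝ) ^ 2)) :=
    (Real.summable_one_div_nat_pow.2 (by norm_num)).mul_left 20
  filter_upwards [Pool.Agent.CP25.bc hs hb] with ω hω
  filter_upwards [hω, sz, JL, Jn, Jh] with n h1 h2 h3 h4 h5
  rw [hbad] at h1
  obtain ⟨h6, h7⟩ := good_of_notMem70 h2 rfl rfl (by omega) h4.2 h1
  exact ⟨h5.trans (by exact_mod_cast h6), h5.trans (by exact_mod_cast h7)⟩

end Pool.Agent.CP70
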